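import Mathlib

set_option autoImplicit false

/-!
# The Levy collapse, and normal ultrafilters
-/

open Set Filter

namespace Pool.Agent.helper59.HC

/-- Conditions: countable partial functions `f` from `K × W` to `K` with `f (a, w) < a`. -/
@[ext] structure Cond (K W : Type) [LinearOrder K] where
  /-- the partial function -/
  f : K × W → Option K
  cnt : {x | f x ≠ none}.Countable
  lt : ∀ x v, f x = some v → v < x.1

variable {K W : Type} [LinearOrder K]

namespace Cond

/-- `q` is stronger than `p` if it extends `p`. -/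
instance : Preorder (Cond K W) where
  le q p := ∀ x v, p.f x = some v → q.f x = some v
  le_refl _ _ _ h := h
  le_trans _ _ _ h h' x v hv := h x v (h' x v hv)

theorem le_def {p q : Cond K W} : q ≤ p ↔ ∀ x v, p.f x = some v → q.f x = some v := Iff.rfl

instance : OrderTop (Cond K W) where
  top := ⟨fun _ => none, by simp, by simp⟩
  le_top _ _ _ h := by cases h

theorem top_f (x : K × W) : (⊤ : Cond K W).f x = none := rfl

/-- The part of `p` below `β` and the part of `q` above `β`. -/
def glue (β : K) (p q : Cond K W) : Cond K W where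
  f x := if x.1 < β then p.f x else q.f x
  cnt := (p.cnt.union q.cnt).mono fun x hx => by
    by_cases h : x.1 < β
    · left
      simpa [h] using hx
    · right
      simpa [h] using hx
  lt x v hv := by
    by_cases h : x.1 < β
    · simp only [h, if_true] at hv
      exact p.lt x v hv
    · simp only [h, if_false] at hv
      exact q.lt x v hv

theorem glue_f_lt {β : K} {p q : Cond K W} {x : K × W} (h : x.1 < β) :
    (glue β p q).f x = p.f x := by simp [glue, h]

theorem glue_f_ge {β : K} {p q : Cond K W} {x : K × W} (h : β ≤ x.1) :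
    (glue β p q).f x = q.f x := by simp [glue, not_lt.2 h]

/-- The support of `p` is below `β`. -/
def Below (p : Cond K W) (β : K) : Prop := ∀ x, β ≤ x.1 → p.f x = none

theorem glue_le_left {β : K} {p q : Cond K W} (h : p.Below β) : glue β p q ≤ p := by
  intro x v hv
  by_cases hx : x.1 < β
  · rw [glue_f_lt hx]
    exact hv
  · rw [h x (not_lt.1 hx)] at hv
    cases hv

theorem le_glue {β : K} {p q r : Cond K W} (h : r ≤ p) (h' : r ≤ q) : r ≤ glue β p q := by
  intro x v hv
  by_cases hx : x.1 < β
  · rw [glue_f_lt hx] at hv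
    exact h x v hv
  · rw [glue_f_ge (not_lt.1 hx)] at hv
    exact h' x v hv

theorem glue_mono {β : K} {p q p' q' : Cond K W} (h : p ≤ p') (h' : q ≤ q') :
    glue β p q ≤ glue β p' q' := by
  intro x v hv
  by_cases hx : x.1 < β
  · rw [glue_f_lt hx] at hv ⊢
    exact h x v hv
  · rw [glue_f_ge (not_lt.1 hx)] at hv ⊢
    exact h' x v hv

@[simp] theorem glue_self {β : K} {p : Cond K W} : glue β p p = p := by
  ext1
  funext x
  by_cases hx : x.1 < β
  · rw [glue_f_lt hx]
  · rw [glue_f_ge (not_lt.1 hx)]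

/-- The part of `p` below `β`. -/
def low (p : Cond K W) (β : K) : Cond K W := glue β p ⊤

/-- The part of `p` above `β`. -/
def high (p : Cond K W) (β : K) : Cond K W := glue β ⊤ p

theorem low_below (p : Cond K W) (β : K) : (low p β).Below β := by
  intro x hx
  unfold low
  rw [glue_f_ge hx, top_f]

theorem low_eq {p : Cond K W} {β : K} (h : p.Below β) : low p β = p := by
  ext1
  funext x
  unfold low
  by_cases hx : x.1 < β
  · rw [glue_f_lt hx]
  · rw [glue_f_ge (not_lt.1 hx), h x (not_lt.1 hx), top_f]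

theorem le_low (p : Cond K W) (β : K) : p ≤ low p β := by
  unfold low
  exact le_glue le_rfl le_top

theorem le_high (p : Cond K W) (β : K) : p ≤ high p β := by
  unfold high
  exact le_glue le_top le_rfl

theorem glue_low_left {β : K} {p q : Cond K W} : glue β (low p β) q = glue β p q := by
  ext1
  funext x
  by_cases hx : x.1 < β
  · rw [glue_f_lt hx, glue_f_lt hx]
    unfold low
    rw [glue_f_lt hx]
  · rw [glue_f_ge (not_lt.1 hx), glue_f_ge (not_lt.1 hx)]

theorem glue_le_high {β : K} {p q : Cond K W} : glue β p q ≤ high q β := by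
  unfold high
  exact glue_mono le_top le_rfl

theorem glue_eq_left {β : K} {p p' q : Cond K W} (h : low p β = low p' β) :
    glue β p q = glue β p' q := by
  rw [← glue_low_left, h, glue_low_left]

theorem low_mono {p q : Cond K W} (h : p ≤ q) (β : K) : low p β ≤ low q β :=
  glue_mono h le_rfl

/-- The Levy collapse is countably closed. -/
theorem exists_lb (p : ℕ → Cond K W) (hp : Antitone p) : ∃ q, ∀ n, q ≤ p n := by
  classical
  let g : K × W → Option K := fun x =>
    if h : ∃ v n, (p n).f x = some v then some h.choose else none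
  have hg : ∀ x n v, (p n).f x = some v → g x = some v := by
    intro x n v hv
    have h : ∃ v n, (p n).f x = some v := ⟨v, n, hv⟩
    obtain ⟨m, hm⟩ := h.choose_spec
    have h1 : g x = some h.choose := by simp only [g, dif_pos h]
    rw [h1]
    rcases le_total n m with hnm | hnm
    · have := hp hnm x v hv
      rw [hm] at this
      exact this
    · have := hp hnm x _ hm
      rw [hv] at this
      exact this.symm
  have hg' : ∀ x v, g x = some v → ∃ n, (p n).f x = some v := by
    intro x v hv
    by_cases h : ∃ v n, (p n).f x = some v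
    · have h1 : g x = some h.choose := by simp only [g, dif_pos h]
      rw [h1] at hv
      obtain ⟨m, hm⟩ := h.choose_spec
      rw [hv] at hm
      exact ⟨m, hm⟩
    · have h1 : g x = none := by simp only [g, dif_neg h]
      rw [h1] at hv
      cases hv
  refine ⟨⟨g, ?_, ?_⟩, fun n x v hv => hg x n v hv⟩
  · refine (countable_iUnion fun n => (p n).cnt).mono fun x hx => ?_
    obtain ⟨v, hv⟩ := Option.ne_none_iff_exists'.1 hx
    obtain ⟨n, hn⟩ := hg' x v hv
    exact mem_iUnion.2 ⟨n, by simp [hn]⟩
  · intro x v hv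
    obtain ⟨n, hn⟩ := hg' x v hv
    exact (p n).lt x v hn

/-- Extend a condition at a point outside the domain. -/
theorem exists_ext (p : Cond K W) {x : K × W} (hx : p.f x = none) {v : K} (hv : v < x.1) :
    ∃ q ≤ p, q.f x = some v := by
  classical
  refine ⟨⟨Function.update p.f x (some v), ?_, ?_⟩, ?_, by simp⟩
  · refine (p.cnt.insert x).mono fun y hy => ?_
    by_cases hxy : y = x
    · exact Or.inl hxy
    · right
      simpa [Function.update_of_ne hxy] using hy
  · intro y u hu
    by_cases hxy : y = x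
    · subst hxy
      rw [Function.update_self] at hu
      cases hu
      exact hv
    · rw [Function.update_of_ne hxy] at hu
      exact p.lt y u hu
  · intro y u hu
    by_cases hxy : y = x
    · subst hxy
      rw [hx] at hu
      cases hu
    · change Function.update p.f x (some v) y = some u
      rw [Function.update_of_ne hxy]
      exact hu

end Cond

/-! ### Fusion -/

/-- Every decreasing sequence has a lower bound. -/
def SClosed (T : Type) [Preorder T] : Prop := ∀ f : ℕ → T, Antitone f → ∃ y, ∀ n, y ≤ f n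

theorem SClosed.cond : SClosed (Cond K W) := fun f hf => Cond.exists_lb f hf

theorem SClosed.pi {I T : Type} [Preorder T] (h : SClosed T) : SClosed (I → T) := by
  intro f hf
  choose y hy using fun i => h (fun n => f n i) (fun _ _ hnm => hf hnm i)
  exact ⟨y, fun n i => hy i n⟩

theorem SClosed.prod {S T : Type} [Preorder S] [Preorder T] (hS : SClosed S) (hT : SClosed T) :
    SClosed (S × T) := by
  intro f hf
  obtain ⟨y, hy⟩ := hS (fun n => (f n).1) (fun _ _ hnm => (hf hnm).1)
  obtain ⟨z, hz⟩ := hT (fun n => (f n).2) (fun _ _ hnm => (hf hnm).2)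
  exact ⟨(y, z), fun n => ⟨hy n, hz n⟩⟩

/-- Meet countably many tasks. -/
theorem SClosed.fuse {T : Type} [Preorder T] (hT : SClosed T) (x₀ : T) (A : ℕ → T → Prop)
    (h : ∀ n, ∀ x ≤ x₀, ∃ y ≤ x, A n y) : ∃ y ≤ x₀, ∀ n, ∃ z, A n z ∧ y ≤ z := by
  choose! g hg hg' using h
  let f : ℕ → T := fun n => Nat.rec x₀ (fun n x => g n x) n
  have hf : ∀ n, f (n + 1) = g n (f n) := fun _ => rfl
  have hle : ∀ n, f n ≤ x₀ := by
    intro n
    induction n with
    | zero => exact le_rfl
    | succ n ih =>
      rw [hf]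
      exact (hg n _ ih).trans ih
  have hanti : Antitone f := antitone_nat_of_succ_le fun n => by
    rw [hf]
    exact hg n _ (hle n)
  obtain ⟨y, hy⟩ := hT f hanti
  exact ⟨y, hy 0, fun n => ⟨f (n + 1), by rw [hf]; exact hg' n _ (hle n), hy (n + 1)⟩⟩

/-! ### Normal ultrafilters -/

/-- `U` is a normal ultrafilter. -/
structure Nrm (W : Type) (U : Ultrafilter K) : Prop where
  tail : ∀ δ : K, ∀ᶠ γ in U, δ < γ
  press : ∀ f : K → K, (∀ᶠ γ in U, f γ < γ) → ∃ a, ∀ᶠ γ in U, f γ = a
  constN : ∀ f : K → ℕ, ∃ a, ∀ᶠ γ in U, f γ = a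
  constW : ∀ f : K → W, ∃ a, ∀ᶠ γ in U, f γ = a

namespace Nrm

variable {U : Ultrafilter K} (hU : Nrm W U)

include hU

theorem countable_inter {A : ℕ → K → Prop} (h : ∀ n, ∀ᶠ γ in U, A n γ) :
    ∀ᶠ γ in U, ∀ n, A n γ := by
  classical
  by_contra hcon
  rw [← Ultrafilter.eventually_not] at hcon
  simp only [not_forall] at hcon
  let g : K → ℕ := fun γ => if h : ∃ n, ¬ A n γ then h.choose else 0
  obtain ⟨n, hn⟩ := hU.constN g
  have h1 : ∀ᶠ γ in U, ¬ A n γ := by
    filter_upwards [hcon, hn] with γ h1 h2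
    have h3 : g γ = h1.choose := by simp only [g, dif_pos h1]
    rw [h2] at h3
    rw [h3]
    exact h1.choose_spec
  obtain ⟨γ, h2, h3⟩ := ((h n).and h1).exists
  exact h3 h2

theorem countable_inter' {ι : Type} [Countable ι] {A : ι → K → Prop}
    (h : ∀ i, ∀ᶠ γ in U, A i γ) : ∀ᶠ γ in U, ∀ i, A i γ := by
  rcases isEmpty_or_nonempty ι with hι | hι
  · exact Eventually.of_forall fun γ i => (hι.false i).elim
  · obtain ⟨e, he⟩ := exists_surjective_nat ι
    filter_upwards [hU.countable_inter fun n => h (e n)] with γ hγ i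
    obtain ⟨n, rfl⟩ := he i
    exact hγ n

theorem countable_ball {ι : Type} {s : Set ι} (hs : s.Countable) {A : ι → K → Prop}
    (h : ∀ i ∈ s, ∀ᶠ γ in U, A i γ) : ∀ᶠ γ in U, ∀ i ∈ s, A i γ := by
  have := hs.to_subtype
  filter_upwards [hU.countable_inter' (fun i : s => h i.1 i.2)] with γ hγ i hi
  exact hγ ⟨i, hi⟩

/-- The support of a condition is bounded. -/
theorem below (p : Cond K W) : ∀ᶠ γ in U, p.Below γ := by
  filter_upwards [hU.countable_ball p.cnt fun x _ => hU.tail x.1] with γ hγ x hx
  by_contra hcon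
  exact absurd (hγ x hcon) (not_lt.2 hx)

/-- Diagonal intersections. -/
theorem diag {A : K → K → Prop} (h : ∀ α, ∀ᶠ γ in U, A α γ) : ∀ᶠ γ in U, ∀ α < γ, A α γ := by
  classical
  by_contra hcon
  rw [← Ultrafilter.eventually_not] at hcon
  have h1 : ∀ᶠ γ in U, ∃ α, α < γ ∧ ¬ A α γ := by
    filter_upwards [hcon] with γ h
    push Not at h
    exact h
  let g : K → K := fun γ => if h : ∃ α, α < γ ∧ ¬ A α γ then h.choose else γ
  obtain ⟨a, ha⟩ := hU.press g (by
    filter_upwards [h1] with γ h
    have : g γ = h.choose := by simp only [g, dif_pos h]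
    rw [this]
    exact h.choose_spec.1)
  have h2 : ∀ᶠ γ in U, ¬ A a γ := by
    filter_upwards [h1, ha] with γ h h'
    have : g γ = h.choose := by simp only [g, dif_pos h]
    rw [← h', this]
    exact h.choose_spec.2
  obtain ⟨γ, h3, h4⟩ := ((h a).and h2).exists
  exact h4 h3

theorem press_opt (g : K → Option ((K × W) × K))
    (hg : ∀ γ x v, g γ = some (x, v) → x.1 < γ ∧ v < γ) : ∃ a, ∀ᶠ γ in U, g γ = a := by
  classical
  by_cases h : ∀ᶠ γ in U, g γ = none
  · exact ⟨none, h⟩
  · rw [← Ultrafilter.eventually_not] at h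
    have h1 : ∀ᶠ γ in U, ∃ a, g γ = some a := by
      filter_upwards [h] with γ hγ
      exact Option.ne_none_iff_exists'.1 hγ
    obtain ⟨γ₀, a₀, -⟩ := h1.exists
    let G : K → (K × W) × K := fun γ => (g γ).getD a₀
    have hG : ∀ᶠ γ in U, g γ = some (G γ) := by
      filter_upwards [h1] with γ ⟨a, ha⟩
      simp [G, ha]
    obtain ⟨a, ha⟩ := hU.press (fun γ => (G γ).1.1) (by
      filter_upwards [hG] with γ h
      exact (hg γ _ _ h).1)
    obtain ⟨b, hb⟩ := hU.constW (fun γ => (G γ).1.2)
    obtain ⟨v, hv⟩ := hU.press (fun γ => (G γ).2) (by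
      filter_upwards [hG] with γ h
      exact (hg γ _ _ h).2)
    refine ⟨some ((a, b), v), ?_⟩
    filter_upwards [hG, ha, hb, hv] with γ h1 h2 h3 h4
    rw [h1, ← h2, ← h3, ← h4]

/-- The lower part `s γ ↾ γ` is constant almost everywhere. -/
theorem low_const (s : K → Cond K W) : ∃ t, ∀ᶠ γ in U, (s γ).low γ = t := by
  classical
  by_cases hne : Nonempty (K × W)
  swap
  · refine ⟨⊤, Eventually.of_forall fun γ => ?_⟩
    ext1
    funext x
    exact (hne ⟨x⟩).elim
  have hch : ∀ γ, ∃ e : ℕ → K × W, {x | ((s γ).low γ).f x ≠ none} ⊆ range e := fun γ =>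
    Set.countable_iff_exists_subset_range.1 ((s γ).low γ).cnt
  choose e he using hch
  let g : ℕ → K → Option ((K × W) × K) := fun n γ =>
    (((s γ).low γ).f (e γ n)).map fun v => (e γ n, v)
  have hg : ∀ n γ x v, g n γ = some (x, v) → ((s γ).low γ).f x = some v := by
    intro n γ x v h
    simp only [g, Option.map_eq_some_iff, Prod.mk.injEq] at h
    obtain ⟨v', h1, h2, h3⟩ := h
    rw [← h2, ← h3]
    exact h1
  have hg' : ∀ γ x v, ((s γ).low γ).f x = some v → ∃ n, g n γ = some (x, v) := by
    intro γ x v h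
    obtain ⟨n, hn⟩ := he γ (show ((s γ).low γ).f x ≠ none by simp [h])
    refine ⟨n, ?_⟩
    simp only [g, hn, h, Option.map_some]
  have hlt : ∀ γ x v, ((s γ).low γ).f x = some v → x.1 < γ ∧ v < γ := by
    intro γ x v h
    have h1 : x.1 < γ := by
      by_contra hcon
      rw [Cond.low_below (s γ) γ x (not_lt.1 hcon)] at h
      cases h
    exact ⟨h1, (((s γ).low γ).lt x v h).trans h1⟩
  choose a ha using fun n => hU.press_opt (g n) (fun γ x v h => hlt γ x v (hg n γ x v h))
  have h1 := hU.countable_inter ha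
  obtain ⟨γ₀, h0⟩ := h1.exists
  refine ⟨(s γ₀).low γ₀, ?_⟩
  filter_upwards [h1] with γ hγ
  ext1
  funext x
  apply Option.ext
  intro v
  constructor
  · intro h
    obtain ⟨n, hn⟩ := hg' γ x v h
    rw [hγ n, ← h0 n] at hn
    exact hg n γ₀ x v hn
  · intro h
    obtain ⟨n, hn⟩ := hg' γ₀ x v h
    rw [h0 n, ← hγ n] at hn
    exact hg n γ x v hn

/-- Diagonal intersections indexed by conditions. -/
theorem diagC {A : Cond K W → K → Prop} (h : ∀ t, ∀ᶠ γ in U, A t γ) :
    ∀ᶠ γ in U, ∀ t : Cond K W, t.Below γ → A t γ := by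
  classical
  by_contra hcon
  rw [← Ultrafilter.eventually_not] at hcon
  have h1 : ∀ᶠ γ in U, ∃ t : Cond K W, t.Below γ ∧ ¬ A t γ := by
    filter_upwards [hcon] with γ h
    push Not at h
    exact h
  let s : K → Cond K W := fun γ => if h : ∃ t : Cond K W, t.Below γ ∧ ¬ A t γ then h.choose else ⊤
  obtain ⟨t, ht⟩ := hU.low_const s
  have h2 : ∀ᶠ γ in U, ¬ A t γ := by
    filter_upwards [h1, ht] with γ h h'
    have h3 : s γ = h.choose := by simp only [s, dif_pos h]
    have h4 := h.choose_spec
    rw [← h3] at h4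
    rw [← h', Cond.low_eq h4.1]
    exact h4.2
  obtain ⟨γ, h3, h4⟩ := ((h t).and h2).exists
  exact h4 h3

/-- The chain condition. -/
theorem cc (q : K → Cond K W) : ∃ α β, α < β ∧ ∃ r, r ≤ q α ∧ r ≤ q β := by
  obtain ⟨t, ht⟩ := hU.low_const q
  obtain ⟨α, hα⟩ := ht.exists
  obtain ⟨β, hβ, hαβ, hb⟩ := (ht.and ((hU.tail α).and (hU.below (q α)))).exists
  refine ⟨α, β, hαβ, Cond.glue β (q α) (q β), Cond.glue_le_left hb, ?_⟩
  intro x v hv
  by_cases hx : x.1 < β
  · rw [Cond.glue_f_lt hx]
    have h1 : ((q β).low β).f x = some v := by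
      unfold Cond.low
      rw [Cond.glue_f_lt hx]
      exact hv
    rw [hβ, ← hα] at h1
    exact Cond.le_low (q α) α x v h1
  · rw [Cond.glue_f_ge (not_lt.1 hx)]
    exact hv

end Nrm

end Pool.Agent.helper59.HC
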