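import Mathlib
import Pool.Agent.helper59.HC.Levy

set_option autoImplicit false

/-!
# The combinatorial core
-/

open Set Filter

namespace Pool.Agent.helper59.HC

variable {K W : Type} [LinearOrder K] (U : Ultrafilter K) (R : K → K → ℕ → Cond K W → Prop)

/-- Functions which assign a condition to each element of `K`. -/
abbrev FC (K W : Type) [LinearOrder K] : Type := K → Cond K W

/-- It is possible to force (below `t`) that almost every `γ` is connected with `α` in colour `n`,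
by a condition below `Q γ`. -/
def Poss (n : ℕ) (α : K) (t : Cond K W) (Q : FC K W) : Prop :=
  ∃ t' ≤ t, ∃ Q' ≤ Q, ∀ᶠ γ in U, R α γ n (Cond.glue γ t' (Q' γ))

/-- For all stronger `r'`, `X'`, `Q'`, it is possible for almost all `α` below `r' ∪ X' α` to
connect `α` with almost all `γ` below `Q'`. -/
def Phi (n : ℕ) (r : Cond K W) (X Q : FC K W) : Prop :=
  ∀ r' ≤ r, ∀ X' ≤ X, ∀ Q' ≤ Q, ∀ᶠ α in U, Poss U R n α (Cond.glue α r' (X' α)) Q'

variable {U R}

theorem Poss.mono {n : ℕ} {α : K} {t t₁ : Cond K W} {Q Q₁ : FC K W} (h : Poss U R n α t Q)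
    (ht : t ≤ t₁) (hQ : Q ≤ Q₁) : Poss U R n α t₁ Q₁ := by
  obtain ⟨t', ht', Q', hQ', h1⟩ := h
  exact ⟨t', ht'.trans ht, Q', hQ'.trans hQ, h1⟩

theorem Phi.mono {n : ℕ} {r r₁ : Cond K W} {X Q X₁ Q₁ : FC K W} (h : Phi U R n r₁ X₁ Q₁)
    (hr : r ≤ r₁) (hX : X ≤ X₁) (hQ : Q ≤ Q₁) : Phi U R n r X Q :=
  fun r' hr' X' hX' Q' hQ' => h r' (hr'.trans hr) X' (hX'.trans hX) Q' (hQ'.trans hQ)

section

variable (hU : Nrm W U)
  (htot : ∀ α γ, α ≠ γ → ∀ r, ∃ r' ≤ r, ∃ n, R α γ n r')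
  (hmono : ∀ α γ n r r', r' ≤ r → R α γ n r → R α γ n r')

include hU htot in
theorem fact1 (α : K) (t : Cond K W) (Q : FC K W) : ∃ n, Poss U R n α t Q := by
  classical
  choose s hs n hn using fun γ : {γ // α ≠ γ} =>
    htot α γ.1 γ.2 (Cond.glue γ.1 t (Q γ.1))
  let s' : K → Cond K W := fun γ => if h : α ≠ γ then s ⟨γ, h⟩ else ⊤
  let n' : K → ℕ := fun γ => if h : α ≠ γ then n ⟨γ, h⟩ else 0
  have h1 : ∀ γ, α ≠ γ → s' γ ≤ Cond.glue γ t (Q γ) ∧ R α γ (n' γ) (s' γ) := by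
    intro γ hγ
    have e1 : s' γ = s ⟨γ, hγ⟩ := by simp only [s', dif_pos hγ]
    have e2 : n' γ = n ⟨γ, hγ⟩ := by simp only [n', dif_pos hγ]
    rw [e1, e2]
    exact ⟨hs ⟨γ, hγ⟩, hn ⟨γ, hγ⟩⟩
  obtain ⟨m, hm⟩ := hU.constN n'
  obtain ⟨t', ht'⟩ := hU.low_const s'
  let Q' : FC K W := fun γ => if s' γ ≤ Cond.glue γ t (Q γ) then Cond.glue γ (Q γ) (s' γ) else Q γ
  refine ⟨m, t', ?_, Q', ?_, ?_⟩
  · obtain ⟨γ, hγ1, hγ2, hγ3⟩ := (ht'.and ((hU.tail α).and (hU.below t))).exists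
    rw [← hγ1, ← Cond.low_eq hγ3]
    refine Cond.low_mono ?_ γ
    exact ((h1 γ hγ2.ne).1).trans (Cond.glue_le_left hγ3)
  · intro γ
    by_cases h : s' γ ≤ Cond.glue γ t (Q γ)
    · have e : Q' γ = Cond.glue γ (Q γ) (s' γ) := by simp only [Q', if_pos h]
      rw [e]
      intro x v hv
      by_cases hx : x.1 < γ
      · rw [Cond.glue_f_lt hx]
        exact hv
      · rw [Cond.glue_f_ge (not_lt.1 hx)]
        refine h x v ?_
        rw [Cond.glue_f_ge (not_lt.1 hx)]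
        exact hv
    · have e : Q' γ = Q γ := by simp only [Q', if_neg h]
      rw [e]
  · filter_upwards [hm, ht', hU.tail α] with γ h2 h3 h4
    obtain ⟨h5, h6⟩ := h1 γ h4.ne
    have e : Q' γ = Cond.glue γ (Q γ) (s' γ) := by simp only [Q', if_pos h5]
    have e2 : Cond.glue γ t' (Q' γ) = s' γ := by
      rw [e, ← h3, Cond.glue_low_left]
      ext1
      funext x
      by_cases hx : x.1 < γ
      · rw [Cond.glue_f_lt hx]
      · rw [Cond.glue_f_ge (not_lt.1 hx), Cond.glue_f_ge (not_lt.1 hx)]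
    rw [e2, ← h2]
    exact h6

include hU htot in
theorem fact2 (r : Cond K W) (X Q : FC K W) :
    ∃ n, ∃ r' ≤ r, ∃ X' ≤ X, ∃ Q' ≤ Q, Phi U R n r' X' Q' := by
  by_contra hcon
  push Not at hcon
  have hS : SClosed (Cond K W × FC K W × FC K W) :=
    SClosed.cond.prod ((SClosed.cond.pi).prod SClosed.cond.pi)
  obtain ⟨y, hy, hy'⟩ := hS.fuse (r, X, Q)
    (fun n z => ∀ᶠ α in U, ¬ Poss U R n α (Cond.glue α z.1 (z.2.1 α)) z.2.2) (by
    intro n x hx
    have h := hcon n x.1 hx.1 x.2.1 hx.2.1 x.2.2 hx.2.2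
    unfold Phi at h
    push Not at h
    obtain ⟨r', hr', X', hX', Q', hQ', h1⟩ := h
    exact ⟨(r', X', Q'), ⟨hr', hX', hQ'⟩, h1⟩)
  choose z hz hyz using hy'
  obtain ⟨α, hα⟩ := (hU.countable_inter hz).exists
  obtain ⟨n, hn⟩ := fact1 hU htot α (Cond.glue α y.1 (y.2.1 α)) y.2.2
  exact hα n (hn.mono (Cond.glue_mono (hyz n).1 ((hyz n).2.1 α)) (hyz n).2.2)

include hU htot in
theorem fact3 (p₀ : Cond K W) (Q₀ : FC K W) : ∃ n, ∃ rs ≤ p₀, ∃ Qs ≤ Q₀, ∀ r ≤ rs, ∀ Q ≤ Qs,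
    ∃ r' ≤ r, ∃ X ≤ Q, ∃ Q' ≤ Q, Phi U R n r' X Q' := by
  by_contra hcon
  push Not at hcon
  have hS : SClosed (Cond K W × FC K W) := SClosed.cond.prod SClosed.cond.pi
  obtain ⟨y, hy, hy'⟩ := hS.fuse (p₀, Q₀)
    (fun n z => ∀ r' ≤ z.1, ∀ X ≤ z.2, ∀ Q' ≤ z.2, ¬ Phi U R n r' X Q') (by
    intro n x hx
    obtain ⟨r, hr, Q, hQ, h⟩ := hcon n x.1 hx.1 x.2 hx.2
    exact ⟨(r, Q), ⟨hr, hQ⟩, h⟩)
  obtain ⟨n, r', hr', X', hX', Q', hQ', h⟩ := fact2 hU htot y.1 y.2 y.2
  obtain ⟨z, hz, hyz⟩ := hy' n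
  exact hz r' (hr'.trans hyz.1) X' (hX'.trans hyz.2) Q' (hQ'.trans hyz.2) h

include hU htot in
/-- The sequences. -/
theorem sequences (p₀ : Cond K W) : ∃ n, ∃ (rω : Cond K W) (X : ℕ → FC K W), rω ≤ p₀ ∧
    ∀ l, ∀ X' ≤ X l, ∀ r' ≤ rω, ∀ k, l < k → ∀ Q' ≤ X k,
      ∀ᶠ α in U, Poss U R n α (Cond.glue α r' (X' α)) Q' := by
  obtain ⟨n, rs, hrs, Qs, hQs, h⟩ := fact3 hU htot p₀ (fun _ => ⊤)
  choose! r hr X hX Q hQ hΦ using h
  let f : ℕ → Cond K W × FC K W := fun k => Nat.rec (rs, Qs) (fun _ z => (r z.1 z.2, Q z.1 z.2)) k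
  have hf : ∀ k, f (k + 1) = (r (f k).1 (f k).2, Q (f k).1 (f k).2) := fun _ => rfl
  have hle : ∀ k, (f k).1 ≤ rs ∧ (f k).2 ≤ Qs := by
    intro k
    induction k with
    | zero => exact ⟨le_rfl, le_rfl⟩
    | succ k ih =>
      rw [hf]
      exact ⟨(hr _ ih.1 _ ih.2).trans ih.1, (hQ _ ih.1 _ ih.2).trans ih.2⟩
  have hanti : Antitone f := antitone_nat_of_succ_le fun k => by
    rw [hf]
    exact ⟨hr _ (hle k).1 _ (hle k).2, hQ _ (hle k).1 _ (hle k).2⟩
  obtain ⟨rω, hrω⟩ := SClosed.cond (fun k => (f k).1) (fun _ _ h => (hanti h).1)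
  refine ⟨n, rω, fun k => X (f k).1 (f k).2, (hrω 0).trans ((hle 0).1.trans hrs), ?_⟩
  intro l X' hX' r' hr' k hlk Q' hQ'
  have h1 := hΦ (f l).1 (hle l).1 (f l).2 (hle l).2
  refine h1 r' (hr'.trans (hrω (l + 1))) X' hX' Q' ?_
  refine hQ'.trans ((hX _ (hle k).1 _ (hle k).2).trans ?_)
  have h2 := (hanti (Nat.succ_le_of_lt hlk)).2
  rw [hf] at h2
  exact h2

include hU htot hmono in
/-- The combinatorial core. -/
theorem core (p₀ : Cond K W) :
    ∃ rω ≤ p₀, ∃ (n : ℕ) (X : ℕ → K → Cond K W) (Y : Set K), Y ∈ U ∧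
      ∀ α ∈ Y, ∀ β ∈ Y, α ≠ β → ∀ j l s, s ≤ rω → s ≤ (X j α).high α → s ≤ (X l β).high β →
        ∀ δ, ∃ γ ∈ Y, δ < γ ∧ ∃ k, ∃ r' ≤ s, r' ≤ (X k γ).high γ ∧ R α γ n r' ∧ R β γ n r' := by
  classical
  obtain ⟨n, rω, X, hrω, hX⟩ := sequences hU htot p₀
  -- Fact 4
  have fact4 : ∀ j, ∀ Q' : FC K W, (∃ k, j < k ∧ Q' ≤ X k) → ∀ᶠ α in U,
      ∀ t ≤ Cond.glue α rω (X j α), Poss U R n α t Q' := by
    rintro j Q' ⟨k, hjk, hQ'⟩
    by_contra hcon
    rw [← Ultrafilter.eventually_not] at hcon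
    have h1 : ∀ᶠ α in U, ∃ t ≤ Cond.glue α rω (X j α), ¬ Poss U R n α t Q' := by
      filter_upwards [hcon] with α h
      push Not at h
      exact h
    let s : K → Cond K W := fun α =>
      if h : ∃ t ≤ Cond.glue α rω (X j α), ¬ Poss U R n α t Q' then h.choose else ⊤
    have hs : ∀ᶠ α in U, s α ≤ Cond.glue α rω (X j α) ∧ ¬ Poss U R n α (s α) Q' := by
      filter_upwards [h1] with α h
      have e : s α = h.choose := by simp only [s, dif_pos h]
      rw [e]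
      exact h.choose_spec
    obtain ⟨r', hr'⟩ := hU.low_const s
    let X' : FC K W := fun α =>
      if s α ≤ Cond.glue α rω (X j α) then Cond.glue α (X j α) (s α) else X j α
    have hX' : X' ≤ X j := by
      intro γ
      by_cases h : s γ ≤ Cond.glue γ rω (X j γ)
      · have e : X' γ = Cond.glue γ (X j γ) (s γ) := by simp only [X', if_pos h]
        rw [e]
        intro x v hv
        by_cases hx : x.1 < γ
        · rw [Cond.glue_f_lt hx]
          exact hv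
        · rw [Cond.glue_f_ge (not_lt.1 hx)]
          refine h x v ?_
          rw [Cond.glue_f_ge (not_lt.1 hx)]
          exact hv
      · have e : X' γ = X j γ := by simp only [X', if_neg h]
        rw [e]
    have hr'ω : r' ≤ rω := by
      obtain ⟨α, h2, h3, h4⟩ := (hs.and (hr'.and (hU.below rω))).exists
      rw [← h3, ← Cond.low_eq h4]
      exact Cond.low_mono (h2.1.trans (Cond.glue_le_left h4)) α
    obtain ⟨α, ⟨h2, h3⟩, h4, h5⟩ := (hs.and (hr'.and (hX j X' hX' r' hr'ω k hjk Q' hQ'))).exists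
    have e : X' α = Cond.glue α (X j α) (s α) := by simp only [X', if_pos h2]
    have e2 : Cond.glue α r' (X' α) = s α := by
      rw [e, ← h4, Cond.glue_low_left]
      ext1
      funext x
      by_cases hx : x.1 < α
      · rw [Cond.glue_f_lt hx]
      · rw [Cond.glue_f_ge (not_lt.1 hx), Cond.glue_f_ge (not_lt.1 hx)]
    rw [e2] at h5
    exact h3 h5
  -- the witnesses
  let Good : K → Cond K W → ℕ → Prop := fun α t k => Poss U R n α t (X k)
  let ct : K → Cond K W → ℕ → Cond K W := fun α t k =>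
    if h : Poss U R n α t (X k) then h.choose else t
  have hct : ∀ α t k, ct α t k ≤ t := by
    intro α t k
    by_cases h : Poss U R n α t (X k)
    · have e : ct α t k = h.choose := by simp only [ct, dif_pos h]
      rw [e]
      exact h.choose_spec.1
    · have e : ct α t k = t := by simp only [ct, dif_neg h]
      rw [e]
  have hcQ' : ∀ α t k, ∃ Q : FC K W, Q ≤ X k ∧ (Poss U R n α t (X k) →
      ∀ᶠ γ in U, R α γ n (Cond.glue γ (ct α t k) (Q γ))) := by
    intro α t k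
    by_cases h : Poss U R n α t (X k)
    · have e : ct α t k = h.choose := by simp only [ct, dif_pos h]
      obtain ⟨Q, hQ, h1⟩ := h.choose_spec.2
      exact ⟨Q, hQ, fun _ => by rw [e]; exact h1⟩
    · exact ⟨X k, le_rfl, fun h' => absurd h' h⟩
  choose cQ hcQ1 hcQ2 using hcQ'
  -- the set `Y`
  have hY : ∀ᶠ β in U,
      -- `rω` and all the `X j α` have support below `β`
      rω.Below β ∧ (∀ α < β, ∀ j, (X j α).Below β) ∧
      -- Fact 4 for the functions `X k`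
      (∀ j k, j < k → ∀ t ≤ Cond.glue β rω (X j β), Poss U R n β t (X k)) ∧
      -- closure under the witnesses
      (∀ α < β, ∀ k, ∀ t : Cond K W, t.Below β → (ct α t k).Below β) ∧
      -- Fact 4 for the functions `cQ α t k`
      (∀ α < β, ∀ k, ∀ t : Cond K W, t.Below β → ∀ l < k,
        ∀ u ≤ Cond.glue β rω (X l β), Poss U R n β u (cQ α t k)) := by
    refine (hU.below rω).and (Filter.Eventually.and
      (hU.diag fun α => hU.countable_inter fun j => hU.below (X j α))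
      (Filter.Eventually.and ?_ (Filter.Eventually.and ?_ ?_)))
    · refine hU.countable_inter fun j => hU.countable_inter fun k => ?_
      by_cases hjk : j < k
      · filter_upwards [fact4 j (X k) ⟨k, hjk, le_rfl⟩] with β h _
        exact h
      · exact Eventually.of_forall fun β h => absurd h hjk
    · refine hU.diag fun α => hU.countable_inter fun k => ?_
      exact hU.diagC fun t => hU.below (ct α t k)
    · refine hU.diag fun α => hU.countable_inter fun k => ?_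
      refine hU.diagC fun t => hU.countable_inter fun l => ?_
      by_cases hlk : l < k
      · filter_upwards [fact4 l (cQ α t k) ⟨k, hlk, hcQ1 α t k⟩] with β h _
        exact h
      · exact Eventually.of_forall fun β h => absurd h hlk
  refine ⟨rω, hrω, n, X, {β | _}, hY, ?_⟩
  -- the case `α < β`
  have main : ∀ α β, α < β → (∀ j k, j < k → ∀ t ≤ Cond.glue α rω (X j α),
        Poss U R n α t (X k)) →
      (rω.Below β ∧ (∀ α < β, ∀ j, (X j α).Below β) ∧
      (∀ j k, j < k → ∀ t ≤ Cond.glue β rω (X j β), Poss U R n β t (X k)) ∧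
      (∀ α < β, ∀ k, ∀ t : Cond K W, t.Below β → (ct α t k).Below β) ∧
      (∀ α < β, ∀ k, ∀ t : Cond K W, t.Below β → ∀ l < k,
        ∀ u ≤ Cond.glue β rω (X l β), Poss U R n β u (cQ α t k))) →
      ∀ j l s, s ≤ rω → s ≤ (X j α).high α → s ≤ (X l β).high β →
        ∀ Y : Set K, Y ∈ U → ∀ δ, ∃ γ ∈ Y, δ < γ ∧ ∃ k, ∃ r' ≤ s, r' ≤ (X k γ).high γ ∧
          R α γ n r' ∧ R β γ n r' := by
    rintro α β hαβ hα ⟨hβ1, hβ2, hβ3, hβ4, hβ5⟩ j l s hs1 hs2 hs3 Y hYU δ
    let k := max j l + 1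
    let t := s.low β
    have ht : t.Below β := Cond.low_below s β
    have ht1 : t ≤ Cond.glue α rω (X j α) := by
      have h1 : t ≤ rω := by
        rw [← Cond.low_eq hβ1]
        exact Cond.low_mono hs1 β
      have h2 : t ≤ (X j α).high α := by
        have h3 : ((X j α).high α).Below β := by
          intro x hx
          unfold Cond.high
          by_cases hxα : x.1 < α
          · rw [Cond.glue_f_lt hxα, Cond.top_f]
          · rw [Cond.glue_f_ge (not_lt.1 hxα)]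
            exact hβ2 α hαβ j x hx
        rw [← Cond.low_eq h3]
        exact Cond.low_mono hs2 β
      intro x v hv
      by_cases hx : x.1 < α
      · rw [Cond.glue_f_lt hx] at hv
        exact h1 x v hv
      · rw [Cond.glue_f_ge (not_lt.1 hx)] at hv
        refine h2 x v ?_
        unfold Cond.high
        rw [Cond.glue_f_ge (not_lt.1 hx)]
        exact hv
    have hposs : Poss U R n α t (X k) := hα j k (by omega) t ht1
    have hR1 := hcQ2 α t k hposs
    set t₁ := ct α t k with ht₁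
    set Q₁ := cQ α t k with hQ₁
    have ht₁t : t₁ ≤ t := hct α t k
    have ht₁β : t₁.Below β := hβ4 α hαβ k t ht
    let s₁ := Cond.glue β t₁ s
    have hs₁t₁ : s₁ ≤ t₁ := Cond.glue_le_left ht₁β
    have hs₁s : s₁ ≤ s := by
      intro x v hv
      by_cases hx : x.1 < β
      · simp only [s₁]
        rw [Cond.glue_f_lt hx]
        refine ht₁t x v ?_
        simp only [t]
        unfold Cond.low
        rw [Cond.glue_f_lt hx]
        exact hv
      · simp only [s₁]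
        rw [Cond.glue_f_ge (not_lt.1 hx)]
        exact hv
    have hs₁2 : s₁ ≤ Cond.glue β rω (X l β) := by
      intro x v hv
      by_cases hx : x.1 < β
      · rw [Cond.glue_f_lt hx] at hv
        exact (hs₁s.trans hs1) x v hv
      · rw [Cond.glue_f_ge (not_lt.1 hx)] at hv
        refine (hs₁s.trans hs3) x v ?_
        unfold Cond.high
        rw [Cond.glue_f_ge (not_lt.1 hx)]
        exact hv
    obtain ⟨s₂, hs₂, Q₂, hQ₂, hR2⟩ := hβ5 α hαβ k t ht l (by omega) s₁ hs₁2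
    obtain ⟨γ, ⟨hγ1, hγ2⟩, hγ3, hγ4, hγ5⟩ := ((hR1.and hR2).and
      ((hU.below s₂).and ((hU.tail δ).and (show ∀ᶠ γ in U, γ ∈ Y from hYU)))).exists
    have hle : Cond.glue γ s₂ (Q₂ γ) ≤ s₂ := Cond.glue_le_left hγ3
    refine ⟨γ, hγ5, hγ4, k, Cond.glue γ s₂ (Q₂ γ), hle.trans (hs₂.trans hs₁s), ?_, ?_, hγ2⟩
    · refine Cond.glue_le_high.trans ?_
      unfold Cond.high
      exact Cond.glue_mono le_rfl ((hQ₂ γ).trans (hcQ1 α t k γ))
    · refine hmono _ _ _ _ _ ?_ hγ1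
      exact Cond.glue_mono (hs₂.trans hs₁t₁) (hQ₂ γ)
  intro α hα β hβ hne j l s hs1 hs2 hs3 δ
  rcases lt_or_gt_of_ne hne with h | h
  · exact main α β h hα.2.2.1 hβ j l s hs1 hs2 hs3 _ hY δ
  · obtain ⟨γ, h1, h2, k, r', h3, h4, h5, h6⟩ :=
      main β α h hβ.2.2.1 hα l j s hs1 hs3 hs2 _ hY δ
    exact ⟨γ, h1, h2, k, r', h3, h4, h6, h5⟩

end

end Pool.Agent.helper59.HC
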