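import Mathlib
import Pool.Agent.helper57.Fc.Card
import Pool.Agent.helper59.HC.Core

set_option autoImplicit false

/-!
# Forcing with the Levy collapse: cardinals
-/

open Set Filter Cardinal FirstOrder FirstOrder.Language

namespace Pool.Agent.helper59.HC

open Pool.Agent.helper57.Fc

section Gen

variable {P : Type} [Preorder P] [OrderTop P] {p : P}

/-- Small cardinals are preserved by distributive forcing. -/
theorem noSurj_of_dist' {ν : Cardinal.{0}} (hd : Dist P ν) {α : Ordinal.{0}} {c : Cardinal.{0}}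
    (hαν : α.card ≤ ν) (hα : α < c.ord) : NoSurj P α c.ord := by
  intro p f hf hs
  have hαc : α.card < c := Cardinal.lt_ord.1 hα
  obtain ⟨q, hq, g, hg⟩ := hf.ground hd hαν
  have hns : ¬ Function.Surjective g := by
    intro h
    have h1 := Cardinal.mk_le_of_surjective h
    rw [Cardinal.mk_ord_toType, Cardinal.mk_toType] at h1
    exact absurd h1 (not_le.2 hαc)
  unfold Function.Surjective at hns
  push Not at hns
  obtain ⟨j, hj⟩ := hns
  obtain ⟨r, hr, i, hi⟩ := (hs.mono hq).exists_val j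
  have h1 := hf.func _ _ _ r (hr.trans hq) hi ((hg i).mono hr)
  rw [oN_eq_oN, helper57.Fc.ord_inj] at h1
  exact hj i h1.symm

theorem FFun_mono_right {f a b b' : Name P} (h : FFun f a b p)
    (hb : ∀ z, ∀ q ≤ p, ForcesMem z b q → ForcesMem z b' q) : FFun f a b' p := by
  refine ⟨fun z q hq hz r hr => ?_, fun x q hq hx r hr => ?_, h.func⟩
  · obtain ⟨s, hs, x, y, hx, hy, h1⟩ := h.graph z q hq hz r hr
    exact ⟨s, hs, x, y, hx, hb y s ((hs.trans hr).trans hq) hy, h1⟩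
  · obtain ⟨s, hs, y, hy, h1⟩ := h.total x q hq hx r hr
    exact ⟨s, hs, y, hb y s ((hs.trans hr).trans hq) hy, h1⟩

/-- An element of `oN o` is densely equal to some `oN (ord i)`. -/
theorem mem_oN_ord {z : Name P} {o : Ordinal.{0}} (h : ForcesMem z (oN P o) p) :
    ∀ q ≤ p, ∃ r ≤ q, ∃ i : o.ToType, ForcesEq z (oN P (ord i)) r := by
  intro q hq
  rw [oN_def'] at h
  obtain ⟨r, hr, i, hi⟩ := mem_ck.1 h q hq
  exact ⟨r, hr, i, hi⟩

variable {κ : Cardinal.{0}}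

/-- The values of a function from a small ordinal are bounded. -/
theorem cover (hcc : ∀ q : κ.ord.ToType → P, ∃ α β, α < β ∧ ∃ r, r ≤ q α ∧ r ≤ q β)
    (hsmall : ∀ S : Set κ.ord.ToType, #S < κ → ∃ δ, ∀ s ∈ S, s < δ) {f : Name P}
    {b : Ordinal.{0}} (hb : b < κ.ord) (hf : FFun f (oN P b) (oN P κ.ord) p) :
    ∃ δ : κ.ord.ToType, ∀ (i : b.ToType) (j : κ.ord.ToType), ∀ q ≤ p,
      ForcesMem (opN (oN P (ord i)) (oN P (ord j))) f q → j < δ := by
  have h1 : ∀ i : b.ToType, ∃ δ : κ.ord.ToType, ∀ j : κ.ord.ToType, ∀ q ≤ p,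
      ForcesMem (opN (oN P (ord i)) (oN P (ord j))) f q → j < δ := by
    intro i
    let V : Set κ.ord.ToType := {j | ∃ q ≤ p, ForcesMem (opN (oN P (ord i)) (oN P (ord j))) f q}
    have hV : #V < κ := by
      by_contra hcon
      have hcon' : #κ.ord.ToType ≤ #V := (Cardinal.mk_ord_toType κ).le.trans (not_lt.1 hcon)
      rw [Cardinal.le_def] at hcon'
      obtain ⟨e⟩ := hcon'
      have hch : ∀ α, ∃ q ≤ p, ForcesMem (opN (oN P (ord i)) (oN P (ord (e α).1))) f q :=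
        fun α => (e α).2
      choose q hq hqf using hch
      obtain ⟨α, β, hαβ, r, hr, hr'⟩ := hcc q
      have h1 := hf.func _ _ _ r (hr.trans (hq α)) ((hqf α).mono hr) ((hqf β).mono hr')
      rw [oN_eq_oN, helper57.Fc.ord_inj] at h1
      exact hαβ.ne (e.injective (Subtype.ext h1))
    obtain ⟨δ, hδ⟩ := hsmall V hV
    exact ⟨δ, fun j q hq h => hδ j ⟨q, hq, h⟩⟩
  choose δ hδ using h1
  obtain ⟨δ', hδ'⟩ := hsmall (range δ) (Cardinal.mk_range_le.trans_lt (by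
    rw [Cardinal.mk_toType]
    exact Cardinal.lt_ord.1 hb))
  exact ⟨δ', fun i j q hq h => (hδ i j q hq h).trans (hδ' _ ⟨i, rfl⟩)⟩

/-- `κ` is preserved. -/
theorem noSurj_of_cc' (hcc : ∀ q : κ.ord.ToType → P, ∃ α β, α < β ∧ ∃ r, r ≤ q α ∧ r ≤ q β)
    (hsmall : ∀ S : Set κ.ord.ToType, #S < κ → ∃ δ, ∀ s ∈ S, s < δ)
    {b : Ordinal.{0}} (hb : b < κ.ord) : NoSurj P b κ.ord := by
  intro p f hf hs
  obtain ⟨δ, hδ⟩ := cover hcc hsmall hb hf
  obtain ⟨q, hq, i, hi⟩ := hs.exists_val δ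
  exact lt_irrefl _ (hδ i δ q hq hi)

/-- Small subsets are bounded. -/
theorem small_bdd (hcc : ∀ q : κ.ord.ToType → P, ∃ α β, α < β ∧ ∃ r, r ≤ q α ∧ r ≤ q β)
    (hsmall : ∀ S : Set κ.ord.ToType, #S < κ → ∃ δ, ∀ s ∈ S, s < δ)
    {b : Ordinal.{0}} (hb : b < κ.ord) {f C : Name P} (hf : FFun f (oN P b) C p)
    (hs : FSurj f (oN P b) C p)
    (hC : ∀ z, ∀ q ≤ p, ForcesMem z C q → ForcesMem z (oN P κ.ord) q) :
    ∃ δ : κ.ord.ToType, ∀ γ : κ.ord.ToType, δ ≤ γ → ∀ q ≤ p, ¬ ForcesMem (oN P (ord γ)) C q := by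
  obtain ⟨δ, hδ⟩ := cover hcc hsmall hb (FFun_mono_right hf hC)
  refine ⟨δ, fun γ hγ q hq h => ?_⟩
  obtain ⟨s, hs', x, hx, h1⟩ := hs _ q hq h q le_rfl
  obtain ⟨t, ht, i, hi⟩ := mem_oN_ord hx s le_rfl
  have h2 := hδ i γ t ((ht.trans hs').trans hq)
    ((h1.mono ht).congr_left (opN_congr hi (ForcesEq.refl _ _)))
  exact absurd h2 (not_lt.2 hγ)

end Gen

section Dist

variable {K W : Type} [LinearOrder K]

theorem dist_cond : Dist (Cond K W) ℵ₀ := by
  intro I hI D hopen hdense p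
  have : Countable I := Cardinal.mk_le_aleph0_iff.1 hI
  rcases isEmpty_or_nonempty I with hI' | hI'
  · exact ⟨p, le_rfl, fun i => isEmptyElim i⟩
  · obtain ⟨e, he⟩ := exists_surjective_nat I
    obtain ⟨y, hy, h⟩ := SClosed.cond.fuse p (fun n z => D (e n) z) (fun n x _ => hdense (e n) x)
    refine ⟨y, hy, fun i => ?_⟩
    obtain ⟨n, rfl⟩ := he i
    obtain ⟨z, hz, hyz⟩ := h n
    exact hopen _ _ _ hyz hz

end Dist

/-! ### The collapse -/

/-- The set `ω₁`. -/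
abbrev Wt : Type := (ℵ₁ : Cardinal.{0}).ord.ToType

/-- The Levy collapse `Coll(ω₁, <κ)`. -/
abbrev Lv (κ : Cardinal.{0}) : Type := Cond κ.ord.ToType Wt

section Collapse

variable {κ : Cardinal.{0}}

/-- The name of the generic function from `ω₁` onto `i`. -/
noncomputable def colN (i : κ.ord.ToType) : Name (Lv κ) :=
  .mk {t : (Wt × κ.ord.ToType) × Lv κ // t.2.f (i, t.1.1) = some t.1.2}
    (fun t => opN (oN _ (ord t.1.1.1)) (oN _ (ord t.1.1.2))) (fun t => t.1.2)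

theorem mem_colN {i : κ.ord.ToType} {z : Name (Lv κ)} {p : Lv κ} :
    ForcesMem z (colN i) p ↔ ∀ q ≤ p, ∃ r ≤ q, ∃ w v, r.f (i, w) = some v ∧
      ForcesEq z (opN (oN _ (ord w)) (oN _ (ord v))) r := by
  constructor
  · intro h q hq
    obtain ⟨r, hr, ⟨⟨⟨w, v⟩, q'⟩, hv⟩, hle, heq⟩ := h q hq
    have hle' : r ≤ q' := hle
    exact ⟨r, hr, w, v, hle' _ _ hv, heq⟩
  · intro h q hq
    obtain ⟨r, hr, w, v, hv, heq⟩ := h q hq
    exact ⟨r, hr, ⟨((w, v), r), hv⟩, le_rfl, heq⟩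

theorem mem_colN_of {i : κ.ord.ToType} {w : Wt} {v : κ.ord.ToType} {p : Lv κ}
    (h : p.f (i, w) = some v) : ForcesMem (opN (oN _ (ord w)) (oN _ (ord v))) (colN i) p :=
  mem_colN.2 fun q hq => ⟨q, le_rfl, w, v, hq _ _ h, ForcesEq.refl _ _⟩

theorem ffun_colN {i v₀ : κ.ord.ToType} (hv₀ : v₀ < i) (p : Lv κ) :
    FFun (colN i) (oN _ (ℵ₁ : Cardinal.{0}).ord) (oN _ (ord i)) p := by
  refine ⟨fun z q _ hz r hr => ?_, fun x q _ hx r hr => ?_, fun x y y' q _ h1 h2 => ?_⟩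
  · obtain ⟨s, hs, w, v, hv, heq⟩ := mem_colN.1 hz r hr
    refine ⟨s, hs, _, _, ord_mem w s, ?_, heq⟩
    rw [oN_mem_oN, helper57.Fc.ord_lt_ord]
    exact s.lt _ _ hv
  · obtain ⟨s, hs, w, hw⟩ := mem_oN_ord hx r hr
    rcases h : s.f (i, w) with _ | v
    · obtain ⟨t, ht, hv⟩ := s.exists_ext h hv₀
      refine ⟨t, ht.trans hs, oN _ (ord v₀), ?_, ?_⟩
      · rw [oN_mem_oN, helper57.Fc.ord_lt_ord]
        exact hv₀
      · exact (mem_colN_of hv).congr_left (opN_congr (hw.mono ht).symm (ForcesEq.refl _ _))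
    · refine ⟨s, hs, oN _ (ord v), ?_, ?_⟩
      · rw [oN_mem_oN, helper57.Fc.ord_lt_ord]
        exact s.lt _ _ h
      · exact (mem_colN_of h).congr_left (opN_congr hw.symm (ForcesEq.refl _ _))
  · refine (ForcesEq.reg _ _).dense fun r hr => ?_
    obtain ⟨s, hs, w, v, hv, heq⟩ := mem_colN.1 h1 r hr
    obtain ⟨t, ht, w', v', hv', heq'⟩ := mem_colN.1 h2 s (hs.trans hr)
    rw [opN_inj] at heq heq'
    have h3 := (heq.1.mono ht).symm.trans heq'.1
    rw [oN_eq_oN, helper57.Fc.ord_inj] at h3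
    subst h3
    have h4 := ht _ _ hv
    rw [hv'] at h4
    cases h4
    exact ⟨t, ht.trans hs, (heq.2.mono ht).trans heq'.2.symm⟩

theorem fsurj_colN (i : κ.ord.ToType) (p : Lv κ) :
    FSurj (colN i) (oN _ (ℵ₁ : Cardinal.{0}).ord) (oN _ (ord i)) p := by
  intro y q _ hy r hr
  obtain ⟨s, hs, j, hj, h1⟩ := mem_oN.1 hy r hr
  obtain ⟨v, rfl⟩ := exists_ord (hj.trans (ord_lt i))
  rw [helper57.Fc.ord_lt_ord] at hj
  -- an unused element of `ω₁`
  obtain ⟨w, hw⟩ : ∃ w, s.f (i, w) = none := by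
    by_contra hcon
    push Not at hcon
    have h2 : (range fun w : Wt => (i, w)) ⊆ {x | s.f x ≠ none} := by
      rintro _ ⟨w, rfl⟩
      exact hcon w
    have h3 : (range fun w : Wt => (i, w)).Countable := s.cnt.mono h2
    have h4 : Countable Wt := by
      have h5 : Function.Injective fun w : Wt => (i, w) := fun a b h => (Prod.mk.inj h).2
      have h6 := h3.to_subtype
      exact (Equiv.ofInjective _ h5).countable_iff.2 h6
    have h7 := Cardinal.mk_le_aleph0_iff.2 h4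
    rw [Cardinal.mk_ord_toType] at h7
    exact absurd h7 (not_le.2 Cardinal.aleph0_lt_aleph_one)
  obtain ⟨t, ht, hv⟩ := s.exists_ext hw hj
  refine ⟨t, ht.trans hs, oN _ (ord w), ord_mem w t, ?_⟩
  exact (mem_colN_of hv).congr_left (opN_congr (ForcesEq.refl _ _) (h1.mono ht).symm)

end Collapse

end Pool.Agent.helper59.HC
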