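import Mathlib
import Pool.Agent.helper57.Fc.Card
import Pool.Agent.helper57.Fc.Dfn
import Pool.Agent.helper59.HC.Names

set_option autoImplicit false

/-!
# The partition relation inside a structure `(M, E)`, and the corresponding formulas
-/

open FirstOrder FirstOrder.Language

namespace Pool.Agent.helper59.HC

open Pool.Agent.helper57.Fc
open Pool.Agent.helper57.Fc.Sem (UPair OPair App Fun Inj Surj Equip Trans Ord Card Lim)

/-! ### Notions inside `(M, E)` -/

namespace Sem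

variable {M : Type} (E : M → M → Prop)

/-- There is a function from `a` onto `b`. -/
def Onto (a b : M) : Prop := ∃ f, Fun E f a b ∧ Surj E f a b

/-- `D` is the set of all two-element subsets `{x, y}` of `k`. -/
def Pairs (D k : M) : Prop := ∀ z, E z D ↔ ∃ x, E x k ∧ ∃ y, E y k ∧ x ≠ y ∧ UPair E z x y

/-- The function `c` takes the value `i` at the unordered pair `{x, y}`. -/
def Col (c x y i : M) : Prop := ∃ z, UPair E z x y ∧ App E c z i

/-- The forcing version of the conclusion of the partition relation. -/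
def Good (c A i k : M) : Prop :=
  (∀ x, E x A → E x k) ∧ Onto E A k ∧
  ∀ C, (∀ x, E x C → E x A) → (∃ b, E b k ∧ Onto E b C) →
    ∀ x, E x A → ∀ y, E y A → ¬ E x C → ¬ E y C → x ≠ y →
      ∃ z, E z A ∧ ¬ E z C ∧ Col E c x z i ∧ Col E c z y i

/-- The forcing version of the partition relation. -/
def HCF (k w : M) : Prop := ∀ D c, Pairs E D k → Fun E c D w → ∃ A i, E i w ∧ Good E c A i k

/-- `w` is `ω`: it is a limit ordinal which has no limit ordinal as an element. -/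
def IsOmega (w : M) : Prop := Ord E w ∧ Lim E w ∧ ∀ x, E x w → ¬ Lim E x

/-- A strong form of: `b` is the least cardinal greater than `a`. -/
def NextF (a b : M) : Prop := Card E b ∧ E a b ∧
  ∀ x, E x b → (E x a ∨ x = a) ∨ (E a x ∧ Onto E a x)

end Sem

/-! ### Formulas -/

/-- There is a function from `a` onto `b`. -/
def fOnto {n : ℕ} (a b : Fin n) : Fm n := ∃' (fFun nw (up a) (up b) ⊓ fSurj nw (up a) (up b))

/-- `D` is the set of all two-element subsets of `k`. -/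
def fPairs {n : ℕ} (D k : Fin n) : Fm n :=
  ∀' (fMem nw (up D) ⇔ fBex (up k) (fBex (up (up k))
    (∼(fEq (up nw) nw) ⊓ fUpair (up (up nw)) (up nw) nw)))

/-- The colour of `{x, y}` is `i`. -/
def fCol {n : ℕ} (c x y i : Fin n) : Fm n :=
  ∃' (fUpair nw (up x) (up y) ⊓ fApp (up c) nw (up i))

/-- `a ⊆ b`. -/
def fSub {n : ℕ} (a b : Fin n) : Fm n := fBall a (fMem nw (up b))

/-- Any two points of `A \ C` have a common neighbour in `A \ C`. -/
def fConn {n : ℕ} (c A C i : Fin n) : Fm n :=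
  fBall A (fBall (up A) (∼(fMem (up nw) (up (up C))) ⟹ ∼(fMem nw (up (up C))) ⟹
    ∼(fEq (up nw) nw) ⟹ fBex (up (up A)) (∼(fMem nw (up (up (up C)))) ⊓
      (fCol (up (up (up c))) (up (up nw)) nw (up (up (up i))) ⊓
        fCol (up (up (up c))) nw (up nw) (up (up (up i)))))))

/-- The conclusion. -/
def fGood {n : ℕ} (c A i k : Fin n) : Fm n :=
  fSub A k ⊓ (fOnto A k ⊓
    ∀' (fSub nw (up A) ⟹ fBex (up k) (fOnto nw (up nw)) ⟹ fConn (up c) (up A) nw (up i)))

/-- The partition relation. -/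
def fHCF {n : ℕ} (k w : Fin n) : Fm n :=
  ∀' (∀' (fPairs (up nw) (up (up k)) ⟹ fFun nw (up nw) (up (up w)) ⟹
    ∃' (∃' (fMem nw (up (up (up (up w)))) ⊓
      fGood (up (up nw)) (up nw) nw (up (up (up (up k))))))))

/-- `w` is `ω`. -/
def fIsOmega {n : ℕ} (w : Fin n) : Fm n := fOrd w ⊓ (fLim w ⊓ fBall w (∼(fLim nw)))

/-- The next cardinal. -/
def fNextF {n : ℕ} (a b : Fin n) : Fm n :=
  fCard b ⊓ (fMem a b ⊓ fBall b ((fMem nw (up a) ⊔ fEq nw (up a)) ⊔
    (fMem (up a) nw ⊓ fOnto (up a) nw)))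

section Sat

variable {M : Type} {E : M → M → Prop} {n : ℕ} {a : Fin n → M}

theorem sat_onto {x y : Fin n} : Sat E (fOnto x y) a ↔ Sem.Onto E (a x) (a y) := by
  simp only [fOnto, sat_ex, sat_and, sat_fun, sat_surj, sn_up, sn_nw, Sem.Onto]

theorem sat_pairs {x y : Fin n} : Sat E (fPairs x y) a ↔ Sem.Pairs E (a x) (a y) := by
  simp only [fPairs, sat_all, sat_iff, sat_mem, sat_bex, sat_and, sat_not, sat_eq, sat_upair,
    sn_up, sn_nw, Sem.Pairs, ne_eq]

theorem sat_col {c x y i : Fin n} :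
    Sat E (fCol c x y i) a ↔ Sem.Col E (a c) (a x) (a y) (a i) := by
  simp only [fCol, sat_ex, sat_and, sat_upair, sat_app, sn_up, sn_nw, Sem.Col]

theorem sat_sub {x y : Fin n} : Sat E (fSub x y) a ↔ ∀ z, E z (a x) → E z (a y) := by
  simp only [fSub, sat_ball, sat_mem, sn_up, sn_nw]

theorem sat_good {c A i k : Fin n} :
    Sat E (fGood c A i k) a ↔ Sem.Good E (a c) (a A) (a i) (a k) := by
  simp only [fGood, fConn, sat_and, sat_sub, sat_onto, sat_all, sat_imp, sat_bex, sat_ball,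
    sat_not, sat_mem, sat_eq, sat_col, sn_up, sn_nw, Sem.Good, ne_eq]

theorem sat_hcf {k w : Fin n} : Sat E (fHCF k w) a ↔ Sem.HCF E (a k) (a w) := by
  simp only [fHCF, sat_all, sat_imp, sat_ex, sat_and, sat_pairs, sat_fun, sat_mem, sat_good,
    sn_up, sn_nw, Sem.HCF]

theorem sat_isOmega {w : Fin n} : Sat E (fIsOmega w) a ↔ Sem.IsOmega E (a w) := by
  simp only [fIsOmega, sat_and, sat_ord, sat_lim, sat_ball, sat_not, sn_nw, Sem.IsOmega]

theorem sat_nextF {x y : Fin n} : Sat E (fNextF x y) a ↔ Sem.NextF E (a x) (a y) := by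
  simp only [fNextF, sat_and, sat_or, sat_card, sat_mem, sat_eq, sat_ball, sat_onto, sn_up,
    sn_nw, Sem.NextF]

end Sat

section Fo

variable {P : Type} [Preorder P] [OrderTop P] {p : P} {n : ℕ} {xs : Fin n → Name P}

theorem fo_onto_of {a b : Fin n} (f : Name P) (h : FFun f (xs a) (xs b) p)
    (h' : FSurj f (xs a) (xs b) p) : Fo (fOnto a b) xs p := by
  unfold fOnto
  refine fo_ex_of f ?_
  rw [fo_and, fo_fun, fo_surj]
  simp only [sn_up, sn_nw]
  exact ⟨h, h'⟩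

theorem fo_onto {a b : Fin n} : Fo (fOnto a b) xs p ↔ ∀ q ≤ p, ∃ r ≤ q, ∃ f,
    FFun f (xs a) (xs b) r ∧ FSurj f (xs a) (xs b) r := by
  unfold fOnto
  rw [fo_ex]
  simp only [fo_and, fo_fun, fo_surj, sn_up, sn_nw]
  exact Iff.rfl

theorem fo_col {c x y i : Fin n} : Fo (fCol c x y i) xs p ↔
    ForcesMem (opN (upN (xs x) (xs y)) (xs i)) (xs c) p := by
  unfold fCol
  rw [fo_ex]
  simp only [fo_and, fo_upair, fo_app, sn_up, sn_nw]
  constructor
  · intro h
    refine (ForcesMem.reg _ _).dense fun q hq => ?_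
    obtain ⟨r, hr, z, h1, h2⟩ := h q hq
    exact ⟨r, hr, h2.congr_left (opN_congr h1 (ForcesEq.refl _ _))⟩
  · intro h q hq
    exact ⟨q, le_rfl, _, ForcesEq.refl _ _, h.mono hq⟩

omit [OrderTop P] in
theorem fo_sub {a b : Fin n} : Fo (fSub a b) xs p ↔
    ∀ z, ∀ q ≤ p, ForcesMem z (xs a) q → ForcesMem z (xs b) q := by
  unfold fSub
  rw [fo_ball]
  simp only [fo_mem, sn_up, sn_nw]

/-- All pairs belong to `D`. -/
theorem mem_pairs {D k : Fin n} (h : Fo (fPairs D k) xs p) {x y : Name P} {q : P} (hq : q ≤ p)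
    (hx : ForcesMem x (xs k) q) (hy : ForcesMem y (xs k) q) (hne : ∀ r ≤ q, ¬ ForcesEq x y r) :
    ForcesMem (upN x y) (xs D) q := by
  unfold fPairs at h
  rw [fo_all] at h
  have h1 := h (upN x y)
  rw [fo_iff] at h1
  have h2 := (h1 q hq).2 (by
    refine fo_bex_of x (by simp only [sn_up]; exact hx) ?_
    refine fo_bex_of y (by simp only [sn_up]; exact hy) ?_
    rw [fo_and, fo_not, fo_upair]
    simp only [fo_eq, sn_up, sn_nw]
    exact ⟨hne, ForcesEq.refl _ _⟩)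
  rw [fo_mem] at h2
  simp only [sn_up, sn_nw] at h2
  exact h2

/-- Any two points of `A \ C` have a common neighbour in `A \ C`. -/
theorem fo_conn_of {c A C i : Fin n} (h : ∀ x y, ∀ q ≤ p, ForcesMem x (xs A) q →
    ForcesMem y (xs A) q → (∀ r ≤ q, ¬ ForcesMem x (xs C) r) → (∀ r ≤ q, ¬ ForcesMem y (xs C) r) →
    (∀ r ≤ q, ¬ ForcesEq x y r) → ∀ r ≤ q, ∃ s ≤ r, ∃ z, ForcesMem z (xs A) s ∧
      (∀ t ≤ s, ¬ ForcesMem z (xs C) t) ∧
      ForcesMem (opN (upN x z) (xs i)) (xs c) s ∧ ForcesMem (opN (upN z y) (xs i)) (xs c) s) :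
    Fo (fConn c A C i) xs p := by
  unfold fConn
  rw [fo_ball]
  intro x q₁ hq₁ hx
  rw [fo_ball]
  intro y q₂ hq₂ hy
  simp only [sn_up] at hy
  rw [fo_imp]
  intro q₃ hq₃ h1
  rw [fo_imp]
  intro q₄ hq₄ h2
  rw [fo_imp]
  intro q₅ hq₅ h3
  rw [fo_not] at h1 h2 h3
  simp only [fo_mem, fo_eq, sn_up, sn_nw] at h1 h2 h3
  rw [fo_bex]
  intro r hr
  have h52 : q₅ ≤ q₂ := (hq₅.trans hq₄).trans hq₃
  obtain ⟨s, hs, z, hz, hzC, e1, e2⟩ := h x y q₅ ((h52.trans hq₂).trans hq₁)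
    (hx.mono (h52.trans hq₂)) (hy.mono h52) (fun r hr => h1 r (hr.trans (hq₅.trans hq₄)))
    (fun r hr => h2 r (hr.trans hq₅)) h3 r hr
  refine ⟨s, hs, z, ?_, ?_⟩
  · simp only [sn_up]
    exact hz
  · rw [fo_and, fo_and, fo_not, fo_col, fo_col]
    simp only [fo_mem, sn_up, sn_nw]
    exact ⟨hzC, e1, e2⟩

end Fo

end Pool.Agent.helper59.HC
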