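import Mathlib
import Pool.Agent.helper59.HC.Levy

set_option autoImplicit false

/-!
# Measurable cardinals and normal ultrafilters
-/

open Set Filter Cardinal

namespace Pool.Agent.helper59.HC

/-- `κ` is a measurable cardinal: it is uncountable, and there is a nonprincipal `κ`-complete
ultrafilter on a set of cardinality `κ`. -/
def IsMeasurable (κ : Cardinal.{0}) : Prop :=
  ℵ₀ < κ ∧ ∃ (X : Type) (U : Ultrafilter X), #X = κ ∧ (∀ x, {x} ∉ U) ∧
    ∀ S : Set (Set X), #S < κ → (∀ A ∈ S, A ∈ U) → ⋂₀ S ∈ U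

section

variable {κ : Cardinal.{0}}

theorem exists_normal (hκ : IsMeasurable κ) :
    ℵ₁ < κ ∧ ∃ D : Ultrafilter κ.ord.ToType,
      (∀ δ : κ.ord.ToType, ∀ᶠ γ in D, δ < γ) ∧
      (∀ f : κ.ord.ToType → κ.ord.ToType, (∀ᶠ γ in D, f γ < γ) → ∃ a, ∀ᶠ γ in D, f γ = a) ∧
      (∀ (I : Type) (_ : #I < κ) (f : κ.ord.ToType → I), ∃ a, ∀ᶠ γ in D, f γ = a) ∧
      (∀ S : Set κ.ord.ToType, #S < κ → ∀ᶠ γ in D, ∀ s ∈ S, s < γ) := by
  classical
  obtain ⟨hω, X, U, hX, hnp, hcomp⟩ := hκ
  -- completeness, indexed form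
  have hcomp' : ∀ {I : Type} (A : I → X → Prop), #I < κ → (∀ i, ∀ᶠ x in U, A i x) →
      ∀ᶠ x in U, ∀ i, A i x := by
    intro I A hI hA
    have h1 := hcomp (range fun i => {x | A i x}) (Cardinal.mk_range_le.trans_lt hI) (by
      rintro _ ⟨i, rfl⟩
      exact hA i)
    filter_upwards [h1] with x hx i
    exact hx _ ⟨i, rfl⟩
  -- functions with few values
  have hconst : ∀ {I : Type} (g : X → I), #I < κ → ∃ a, ∀ᶠ x in U, g x = a := by
    intro I g hI
    by_contra hcon
    push Not at hcon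
    have h1 : ∀ᶠ x in U, ∀ i, g x ≠ i := hcomp' (fun i x => g x ≠ i) hI hcon
    obtain ⟨x, hx⟩ := h1.exists
    exact hx (g x) rfl
  -- `κ` is greater than the continuum
  have hcont : ℵ₁ < κ := by
    rw [← not_le]
    intro hle
    have h1 : κ ≤ #(Set ℕ) := by
      rw [Cardinal.mk_set, Cardinal.mk_nat]
      exact hle.trans (Cardinal.aleph_one_le_continuum.trans_eq Cardinal.two_power_aleph0.symm)
    rw [← hX, Cardinal.le_def] at h1
    obtain ⟨e⟩ := h1
    have h2 : ∀ n : ℕ, ∃ a : Prop, ∀ᶠ x in U, (n ∈ e x) = a := fun n =>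
      hconst (fun x => n ∈ e x) (by
        refine lt_of_le_of_lt ?_ hω
        exact Cardinal.mk_le_aleph0)
    choose a ha using h2
    have h3 : ∀ᶠ x in U, ∀ n, (n ∈ e x) = a n :=
      hcomp' _ (by rw [Cardinal.mk_nat]; exact hω) ha
    obtain ⟨x₀, hx₀⟩ := h3.exists
    apply hnp x₀
    filter_upwards [h3] with x hx
    apply e.injective
    ext n
    have : (n ∈ e x) = (n ∈ e x₀) := (hx n).trans (hx₀ n).symm
    rw [this]
  refine ⟨hcont, ?_⟩
  let K := κ.ord.ToType
  have hK : #K = κ := Cardinal.mk_ord_toType κ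
  -- the least nonconstant function
  let r : (X → K) → (X → K) → Prop := fun f g => ∀ᶠ x in U, f x < g x
  have hwf : WellFounded r := by
    rw [wellFounded_iff_isEmpty_descending_chain]
    refine ⟨fun ⟨f, hf⟩ => ?_⟩
    have h1 : ∀ᶠ x in U, ∀ n, f (n + 1) x < f n x :=
      hcomp' _ (by rw [Cardinal.mk_nat]; exact hω) hf
    obtain ⟨x, hx⟩ := h1.exists
    exact not_strictAnti_of_wellFoundedLT (fun n => f n x) (strictAnti_nat_of_succ_lt hx)
  obtain ⟨e⟩ : Nonempty (X ≃ K) := Cardinal.eq.1 (hX.trans hK.symm)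
  obtain ⟨f, hf, hmin⟩ := hwf.has_min {f : X → K | ¬ ∃ a, ∀ᶠ x in U, f x = a} ⟨e, by
    rintro ⟨a, ha⟩
    apply hnp (e.symm a)
    filter_upwards [ha] with x hx
    rw [← hx, e.symm_apply_apply]
    rfl⟩
  have hf' : ∀ a, ∀ᶠ x in U, f x ≠ a := by
    intro a
    rw [Ultrafilter.eventually_not]
    exact fun h => hf ⟨a, h⟩
  -- small sets
  have hsmall : ∀ S : Set K, #S < κ → ∀ᶠ x in U, ∀ s ∈ S, s < f x := by
    intro S hS
    have h1 : ∀ s : K, ∀ᶠ x in U, s < f x := by
      intro s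
      have h2 : ∀ᶠ x in U, ∀ t : Set.Iic s, f x ≠ t.1 :=
        hcomp' (fun (t : Set.Iic s) x => f x ≠ t.1) (by
          have h3 : Set.Iic s = Set.Iio s ∪ {s} := by
            ext t
            simp [le_iff_lt_or_eq, or_comm]
          rw [h3]
          refine (Cardinal.mk_union_le _ _).trans_lt (Cardinal.add_lt_of_lt hω.le ?_ ?_)
          · have := Cardinal.mk_Iio_lt s (by
              rw [hK]
              exact (Ordinal.type_toType _).symm)
            rw [hK] at this
            exact this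
          · rw [Cardinal.mk_singleton]
            exact Cardinal.one_lt_aleph0.trans hω) fun t => hf' t.1
      filter_upwards [h2] with x hx
      by_contra hcon
      exact hx ⟨f x, not_lt.1 hcon⟩ rfl
    have h4 : ∀ᶠ x in U, ∀ s : S, s.1 < f x := hcomp' (fun (s : S) x => s.1 < f x) hS fun s => h1 s.1
    filter_upwards [h4] with x hx s hs
    exact hx ⟨s, hs⟩
  refine ⟨U.map f, ?_, ?_, ?_, ?_⟩
  · intro δ
    have h1 : ∀ᶠ x in U, ∀ s ∈ ({δ} : Set K), s < f x := hsmall {δ} (by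
      rw [Cardinal.mk_singleton]
      exact Cardinal.one_lt_aleph0.trans hω)
    have h2 : ∀ᶠ x in U, δ < f x := by
      filter_upwards [h1] with x hx
      exact hx δ rfl
    exact h2
  · intro g hg
    by_contra hcon
    have hg' : ∀ᶠ x in U, g (f x) < f x := hg
    refine hmin (fun x => g (f x)) ?_ hg'
    rintro ⟨a, ha⟩
    exact hcon ⟨a, ha⟩
  · intro I hI g
    obtain ⟨a, ha⟩ := hconst (fun x => g (f x)) hI
    exact ⟨a, ha⟩
  · intro S hS
    exact hsmall S hS

end

end Pool.Agent.helper59.HC
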