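import Mathlib
import Pool.Agent.helper59.HC.Form
import Pool.Agent.helper59.HC.Measure

set_option autoImplicit false

/-!
# The partition relation is forced
-/

open Set Filter Cardinal FirstOrder FirstOrder.Language

namespace Pool.Agent.helper59.HC

open Pool.Agent.helper57.Fc

variable {κ : Cardinal.{0}}

/-- What we need about `κ`. -/
structure Setup (κ : Cardinal.{0}) where
  lt : ℵ₁ < κ
  /-- the ultrafilter -/
  D : Ultrafilter κ.ord.ToType
  nrm : Nrm Wt D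
  small : ∀ S : Set κ.ord.ToType, #S < κ → ∀ᶠ γ in D, ∀ s ∈ S, s < γ

theorem exists_setup (hκ : IsMeasurable κ) : Nonempty (Setup κ) := by
  obtain ⟨h1, D, h2, h3, h4, h5⟩ := exists_normal hκ
  refine ⟨⟨h1, D, ⟨h2, h3, fun f => h4 ℕ ?_ f, fun f => h4 Wt ?_ f⟩, h5⟩⟩
  · rw [Cardinal.mk_nat]
    exact Cardinal.aleph0_lt_aleph_one.trans h1
  · rw [Cardinal.mk_ord_toType]
    exact h1

namespace Setup

variable (S : Setup κ)

include S

theorem inf : ℵ₀ < κ := Cardinal.aleph0_lt_aleph_one.trans S.lt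

theorem bdd (A : Set κ.ord.ToType) (hA : #A < κ) : ∃ δ, ∀ s ∈ A, s < δ := (S.small A hA).exists

theorem Iic_lt (δ : κ.ord.ToType) : #(Set.Iic δ) < κ := by
  have h3 : Set.Iic δ = Set.Iio δ ∪ {δ} := by
    ext t
    simp [le_iff_lt_or_eq, or_comm]
  rw [h3]
  refine (Cardinal.mk_union_le _ _).trans_lt (Cardinal.add_lt_of_lt S.inf.le ?_ ?_)
  · have := Cardinal.mk_Iio_lt δ (by
      rw [Cardinal.mk_ord_toType]
      exact (Ordinal.type_toType _).symm)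
    rw [Cardinal.mk_ord_toType] at this
    exact this
  · rw [Cardinal.mk_singleton]
    exact Cardinal.one_lt_aleph0.trans S.inf

theorem le_of_mem {Y : Set κ.ord.ToType} (hY : Y ∈ S.D) : κ ≤ #Y := by
  by_contra hcon
  obtain ⟨γ, h1, h2⟩ := ((S.small Y (not_le.1 hcon)).and
    (show ∀ᶠ γ in S.D, γ ∈ Y from hY)).exists
  exact lt_irrefl _ (h1 γ h2)

theorem exists_h {Y : Set κ.ord.ToType} (hY : Y ∈ S.D) :
    ∃ h : κ.ord.ToType → κ.ord.ToType, ∀ η δ, ∃ α ∈ Y, δ < α ∧ h α = η := by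
  classical
  have hK : #κ.ord.ToType = κ := Cardinal.mk_ord_toType κ
  have h1 : #Y = #(κ.ord.ToType × κ.ord.ToType) := by
    rw [Cardinal.mk_prod, Cardinal.lift_id, hK, Cardinal.mul_eq_self S.inf.le]
    exact le_antisymm ((Cardinal.mk_set_le Y).trans_eq hK) (S.le_of_mem hY)
  obtain ⟨e⟩ := Cardinal.eq.1 h1
  refine ⟨fun α => if hα : α ∈ Y then (e ⟨α, hα⟩).1 else α, fun η δ => ?_⟩
  by_contra hcon
  push Not at hcon
  have h2 : ∀ v, (e.symm (η, v)).1 ∈ Set.Iic δ := by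
    intro v
    by_contra h3
    have h4 : δ < (e.symm (η, v)).1 := not_le.1 h3
    refine hcon _ (e.symm (η, v)).2 h4 ?_
    rw [dif_pos (e.symm (η, v)).2]
    simp
  have h3 : Function.Injective (fun v => (⟨(e.symm (η, v)).1, h2 v⟩ : Set.Iic δ)) := by
    intro v v' h
    have h4 : (e.symm (η, v)).1 = (e.symm (η, v')).1 :=
      congrArg (fun z : Set.Iic δ => z.1) h
    have h5 := e.symm.injective (Subtype.ext h4)
    exact (Prod.mk.inj h5).2
  have h4 := Cardinal.mk_le_of_injective h3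
  rw [hK] at h4
  exact absurd h4 (not_le.2 (S.Iic_lt δ))

end Setup

/-! ### The homogeneous set -/

section Names

variable (X : ℕ → κ.ord.ToType → Lv κ) (Y : Set κ.ord.ToType)

/-- The name of the homogeneous set. -/
noncomputable def aN : Name (Lv κ) :=
  .mk (ℕ × Y) (fun t => oN _ (ord t.2.1)) (fun t => (X t.1 t.2.1).high t.2.1)

/-- The name of a function defined on the homogeneous set. -/
noncomputable def hN (h : κ.ord.ToType → κ.ord.ToType) : Name (Lv κ) :=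
  .mk (ℕ × Y) (fun t => opN (oN _ (ord t.2.1)) (oN _ (ord (h t.2.1))))
    (fun t => (X t.1 t.2.1).high t.2.1)

variable {X Y} {p : Lv κ} {z : Name (Lv κ)}

theorem mem_aN : ForcesMem z (aN X Y) p ↔ ∀ q ≤ p, ∃ r ≤ q, ∃ k, ∃ α ∈ Y,
    r ≤ (X k α).high α ∧ ForcesEq z (oN _ (ord α)) r := by
  constructor
  · intro h q hq
    obtain ⟨r, hr, ⟨k, α⟩, hle, heq⟩ := h q hq
    exact ⟨r, hr, k, α.1, α.2, hle, heq⟩
  · intro h q hq
    obtain ⟨r, hr, k, α, hα, hle, heq⟩ := h q hq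
    exact ⟨r, hr, ⟨k, ⟨α, hα⟩⟩, hle, heq⟩

theorem mem_aN_of {k : ℕ} {α : κ.ord.ToType} (hα : α ∈ Y) (h : p ≤ (X k α).high α) :
    ForcesMem (oN _ (ord α)) (aN X Y) p :=
  mem_aN.2 fun q hq => ⟨q, le_rfl, k, α, hα, hq.trans h, ForcesEq.refl _ _⟩

theorem mem_hN {h : κ.ord.ToType → κ.ord.ToType} :
    ForcesMem z (hN X Y h) p ↔ ∀ q ≤ p, ∃ r ≤ q, ∃ k, ∃ α ∈ Y,
      r ≤ (X k α).high α ∧ ForcesEq z (opN (oN _ (ord α)) (oN _ (ord (h α)))) r := by
  constructor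
  · intro h q hq
    obtain ⟨r, hr, ⟨k, α⟩, hle, heq⟩ := h q hq
    exact ⟨r, hr, k, α.1, α.2, hle, heq⟩
  · intro h q hq
    obtain ⟨r, hr, k, α, hα, hle, heq⟩ := h q hq
    exact ⟨r, hr, ⟨k, ⟨α, hα⟩⟩, hle, heq⟩

theorem mem_hN_of {h : κ.ord.ToType → κ.ord.ToType} {k : ℕ} {α : κ.ord.ToType} (hα : α ∈ Y)
    (hp : p ≤ (X k α).high α) :
    ForcesMem (opN (oN _ (ord α)) (oN _ (ord (h α)))) (hN X Y h) p :=
  mem_hN.2 fun q hq => ⟨q, le_rfl, k, α, hα, hq.trans hp, ForcesEq.refl _ _⟩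

theorem aN_sub (q : Lv κ) (h : ForcesMem z (aN X Y) q) : ForcesMem z (oN _ κ.ord) q := by
  refine (ForcesMem.reg _ _).dense fun r hr => ?_
  obtain ⟨s, hs, k, α, _, _, heq⟩ := mem_aN.1 h r hr
  exact ⟨s, hs, (ord_mem α s).congr_left heq.symm⟩

theorem ffun_hN (h : κ.ord.ToType → κ.ord.ToType) (p : Lv κ) :
    FFun (hN X Y h) (aN X Y) (oN _ κ.ord) p := by
  refine ⟨fun z q _ hz r hr => ?_, fun x q _ hx r hr => ?_, fun x y y' q _ h1 h2 => ?_⟩
  · obtain ⟨s, hs, k, α, hα, hle, heq⟩ := mem_hN.1 hz r hr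
    exact ⟨s, hs, _, _, mem_aN_of hα hle, ord_mem _ s, heq⟩
  · obtain ⟨s, hs, k, α, hα, hle, heq⟩ := mem_aN.1 hx r hr
    refine ⟨s, hs, oN _ (ord (h α)), ord_mem _ s, ?_⟩
    exact (mem_hN_of hα hle).congr_left (opN_congr heq.symm (ForcesEq.refl _ _))
  · refine (ForcesEq.reg _ _).dense fun r hr => ?_
    obtain ⟨s, hs, k, α, hα, hle, heq⟩ := mem_hN.1 h1 r hr
    obtain ⟨t, ht, k', α', hα', hle', heq'⟩ := mem_hN.1 h2 s (hs.trans hr)
    rw [opN_inj] at heq heq'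
    have h3 := (heq.1.mono ht).symm.trans heq'.1
    rw [oN_eq_oN, helper57.Fc.ord_inj] at h3
    subst h3
    exact ⟨t, ht.trans hs, (heq.2.mono ht).trans heq'.2.symm⟩

theorem fsurj_hN (S : Setup κ) {h : κ.ord.ToType → κ.ord.ToType}
    (hh : ∀ η δ, ∃ α ∈ Y, δ < α ∧ h α = η) (p : Lv κ) :
    FSurj (hN X Y h) (aN X Y) (oN _ κ.ord) p := by
  intro y q _ hy r hr
  obtain ⟨s, hs, η, hη⟩ := mem_oN_ord hy r hr
  obtain ⟨δ, hδ⟩ := (S.nrm.below s).exists
  obtain ⟨α, hα, hδα, hhα⟩ := hh η δ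
  have hb : s.Below α := fun x hx => hδ x (hδα.le.trans hx)
  refine ⟨Cond.glue α s (X 0 α), (Cond.glue_le_left hb).trans hs, oN _ (ord α),
    mem_aN_of (k := 0) hα Cond.glue_le_high, ?_⟩
  refine (mem_hN_of (k := 0) hα Cond.glue_le_high).congr_left (opN_congr (ForcesEq.refl _ _) ?_)
  rw [hhα]
  exact (hη.mono (Cond.glue_le_left hb)).symm

end Names

/-- The partition relation is forced. -/
theorem fo_hcf (S : Setup κ) {n : ℕ} {xs : Fin n → Name (Lv κ)} {k w : Fin n}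
    (hk : xs k = oN _ κ.ord) (hw : xs w = oN _ Ordinal.omega0) (p : Lv κ) :
    Fo (fHCF k w) xs p := by
  classical
  unfold fHCF
  rw [fo_all]
  intro D
  rw [fo_all]
  intro c
  rw [fo_imp]
  intro q₁ _ hD
  rw [fo_imp]
  intro q₂ hq₂ hc
  rw [fo_fun] at hc
  simp only [sn_up, sn_nw] at hc
  rw [hw] at hc
  rw [fo_ex]
  intro q hq
  -- the relation
  let R : κ.ord.ToType → κ.ord.ToType → ℕ → Lv κ → Prop := fun α γ m r =>
    ForcesMem (opN (upN (oN _ (ord α)) (oN _ (ord γ))) (oN _ (m : Ordinal.{0}))) c r ∨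
      ∀ s ≤ r, ¬ s ≤ q
  have htot : ∀ α γ, α ≠ γ → ∀ r, ∃ r' ≤ r, ∃ m, R α γ m r' := by
    intro α γ hne r
    by_cases hcomp : ∃ s ≤ r, s ≤ q
    · obtain ⟨s, hs, hsq⟩ := hcomp
      have hpair : ForcesMem (upN (oN _ (ord α)) (oN _ (ord γ))) D s := by
        have := mem_pairs hD (x := oN _ (ord α)) (y := oN _ (ord γ)) (q := s)
          ((hsq.trans hq).trans hq₂) (by simp only [sn_up]; rw [hk]; exact ord_mem _ _)
          (by simp only [sn_up]; rw [hk]; exact ord_mem _ _)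
          (fun r _ h => hne (by rwa [oN_eq_oN, helper57.Fc.ord_inj] at h))
        simp only [sn_up, sn_nw] at this
        exact this
      obtain ⟨s', hs', y, hy, h1⟩ := hc.total _ s (hsq.trans hq) hpair s le_rfl
      obtain ⟨s'', hs'', i, hi, h2⟩ := mem_oN.1 hy s' le_rfl
      obtain ⟨m, rfl⟩ := Ordinal.lt_omega0.1 hi
      exact ⟨s'', (hs''.trans hs').trans hs, m,
        Or.inl ((h1.mono hs'').congr_left (opN_congr (ForcesEq.refl _ _) h2))⟩
    · push Not at hcomp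
      exact ⟨r, le_rfl, 0, Or.inr hcomp⟩
  have hmono : ∀ α γ m r r', r' ≤ r → R α γ m r → R α γ m r' := by
    intro α γ m r r' hr h
    rcases h with h | h
    · exact Or.inl (h.mono hr)
    · exact Or.inr fun s hs => h s (hs.trans hr)
  obtain ⟨rω, hrω, m, X, Y, hY, hcore⟩ := core S.nrm htot hmono q
  obtain ⟨h, hh⟩ := S.exists_h hY
  refine ⟨rω, hrω, aN X Y, ?_⟩
  refine fo_ex_of (oN _ (m : Ordinal.{0})) ?_
  rw [fo_and]
  constructor
  · rw [fo_mem]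
    simp only [sn_up, sn_nw]
    rw [hw, oN_mem_oN]
    exact Ordinal.natCast_lt_omega0 m
  unfold fGood
  rw [fo_and, fo_and, fo_sub]
  refine ⟨?_, ?_, ?_⟩
  · intro z q' _ hz
    simp only [sn_up, sn_nw] at hz ⊢
    rw [hk]
    exact aN_sub q' hz
  · refine fo_onto_of (hN X Y h) ?_ ?_
    · simp only [sn_up, sn_nw]
      rw [hk]
      exact ffun_hN h rω
    · simp only [sn_up, sn_nw]
      rw [hk]
      exact fsurj_hN S hh rω
  · rw [fo_all]
    intro C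
    rw [fo_imp]
    intro q₃ hq₃ hC
    rw [fo_sub] at hC
    simp only [sn_up, sn_nw] at hC
    rw [fo_imp]
    intro q₄ hq₄ hsm
    rw [fo_bex_oN (o := κ.ord) (by simp only [sn_up]; exact hk)] at hsm
    refine fo_conn_of fun x y q' hq' hx hy hxC hyC hne r hr => ?_
    simp only [sn_up, sn_nw] at hx hy hxC hyC ⊢
    -- the set `C` is bounded
    obtain ⟨r₁, hr₁, b, hb, h1⟩ := hsm r (hr.trans hq')
    rw [fo_onto] at h1
    simp only [sn_up, sn_nw] at h1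
    obtain ⟨r₂, hr₂, f, hf, hfs⟩ := h1 r₁ le_rfl
    have hr₂r : r₂ ≤ r := hr₂.trans hr₁
    have hr₂ω : r₂ ≤ rω := (((hr₂r.trans hr).trans hq').trans hq₄).trans hq₃
    obtain ⟨δ, hδ⟩ := small_bdd (κ := κ) S.nrm.cc S.bdd hb hf hfs (fun z q'' hq'' hz =>
      aN_sub q'' (hC z q'' (((hq''.trans hr₂r).trans (hr.trans hq')).trans hq₄) hz))
    -- decide `x` and `y`
    obtain ⟨r₃, hr₃, j, α, hα, hjα, hxα⟩ := mem_aN.1 hx r₂ (hr₂r.trans hr)
    obtain ⟨r₄, hr₄, l, β, hβ, hlβ, hyβ⟩ := mem_aN.1 hy r₃ ((hr₃.trans hr₂r).trans hr)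
    have hαβ : α ≠ β := by
      rintro rfl
      exact hne r₄ ((hr₄.trans (hr₃.trans hr₂r)).trans hr) ((hxα.mono hr₄).trans hyβ.symm)
    obtain ⟨γ, hγ, hδγ, k', r', hr', hkγ, h2, h3⟩ := hcore α hα β hβ hαβ j l r₄
      ((hr₄.trans hr₃).trans hr₂ω) (hr₄.trans hjα) hlβ δ
    have hr'2 : r' ≤ r₂ := (hr'.trans hr₄).trans hr₃
    have hr'q : r' ≤ q := (hr'2.trans hr₂ω).trans hrω
    have h2' := h2.resolve_right fun h => h r' le_rfl hr'q
    have h3' := h3.resolve_right fun h => h r' le_rfl hr'q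
    refine ⟨r', hr'2.trans hr₂r, oN _ (ord γ), mem_aN_of hγ hkγ,
      fun t ht => hδ γ hδγ.le t (ht.trans hr'2), ?_, ?_⟩
    · refine h2'.congr_left (opN_congr (upN_congr ?_ (ForcesEq.refl _ _)) (ForcesEq.refl _ _))
      exact (hxα.mono (hr'.trans hr₄)).symm
    · refine h3'.congr_left (opN_congr ?_ (ForcesEq.refl _ _))
      refine (upN_congr (hyβ.mono hr').symm (ForcesEq.refl _ _)).trans (upN_comm _ _ _)

end Pool.Agent.helper59.HC
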