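import Mathlib
import Pool.Agent.helper57.Fc.Dfn
import Pool.Agent.helper59.HC.Form

set_option autoImplicit false

/-!
# Cardinalities inside a model of ZFC
-/

open FirstOrder FirstOrder.Language

namespace Pool.Agent.helper59.HC

open Pool.Agent.helper57.Fc
open Pool.Agent.helper57.Fc.Sem (UPair OPair App Fun Inj Surj Equip Trans Ord Card Lim)

variable {M : Type} {E : M → M → Prop}

theorem equip_onto {a b : M} (h : Equip E a b) : Sem.Onto E a b := by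
  obtain ⟨f, h1, -, h3⟩ := h
  exact ⟨f, h1, h3⟩

/-- A surjective function has an injective right inverse. -/
theorem exists_inj (hM : IsZFC E) {A k F : M} (hF : Fun E F A k) (hs : Surj E F A k) :
    ∃ g, Fun E g k A ∧ Inj E g := by
  obtain ⟨p, hp⟩ := hM.power A
  obtain ⟨fam, hfam⟩ := hM.sp (P := fun S => ∃ y, E y k ∧ ∀ x, E x S ↔ (E x A ∧ App E F x y)) (by
    apply Dfn.ex
    apply Dfn.and
    · exact Dfn.mem (Tm.var _) (Tm.const _)
    · apply Dfn.all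
      apply Dfn.iff
      · exact Dfn.mem (Tm.var _) (Tm.var _)
      · apply Dfn.and
        · exact Dfn.mem (Tm.var _) (Tm.const _)
        · exact Dfn.app (Tm.const _) (Tm.var _) (Tm.var _)) p
  obtain ⟨c, hc⟩ := hM.choice fam (by
    intro S hS
    obtain ⟨-, y, hy, hSy⟩ := (hfam S).1 hS
    obtain ⟨x, hx, hxy⟩ := hs y hy
    exact ⟨x, (hSy x).2 ⟨hx, hxy⟩⟩) (by
    rintro S S' hS hS' hne ⟨x, hx, hx'⟩
    obtain ⟨-, y, hy, hSy⟩ := (hfam S).1 hS
    obtain ⟨-, y', hy', hSy'⟩ := (hfam S').1 hS'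
    have h1 := hF.2.2 x y y' ((hSy x).1 hx).2 ((hSy' x).1 hx').2
    subst h1
    exact hne (hM.ext _ _ fun t => (hSy t).trans (hSy' t).symm))
  have hset : ∀ y, E y k → ∃ S, E S fam ∧ ∀ x, E x S ↔ (E x A ∧ App E F x y) := by
    intro y hy
    obtain ⟨S, hS⟩ := hM.sp (P := fun x => App E F x y)
      (Dfn.app (Tm.const _) (Tm.var _) (Tm.const _)) A
    exact ⟨S, (hfam S).2 ⟨(hp S).2 fun t ht => ((hS t).1 ht).1, y, hy, hS⟩, hS⟩
  obtain ⟨g, hg, hg'⟩ := hM.exists_fun k A (R := fun y x => E x c ∧ App E F x y) (by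
    apply Dfn.and
    · exact Dfn.mem (Tm.var _) (Tm.const _)
    · exact Dfn.app (Tm.const _) (Tm.var _) (Tm.var _)) (by
    intro y hy
    obtain ⟨S, hS, hS'⟩ := hset y hy
    obtain ⟨t, ⟨ht1, ht2⟩, -⟩ := hc S hS
    exact ⟨t, ((hS' t).1 ht1).1, ht2, ((hS' t).1 ht1).2⟩) (by
    rintro y hy x x' hx hx' ⟨h1, h2⟩ ⟨h3, h4⟩
    obtain ⟨S, hS, hS'⟩ := hset y hy
    exact (hc S hS).unique ⟨(hS' x).2 ⟨hx, h2⟩, h1⟩ ⟨(hS' x').2 ⟨hx', h4⟩, h3⟩)
  refine ⟨g, hg, fun y y' x h h' => ?_⟩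
  exact hF.2.2 x y y' ((hg' y x).1 h).2.2.2 ((hg' y' x).1 h').2.2.2

/-- The Cantor–Bernstein theorem, for a subset. -/
theorem bernstein (hM : IsZF E) {A k g : M} (hA : ∀ x, E x A → E x k) (hg : Fun E g k A)
    (hi : Inj E g) : Equip E A k := by
  obtain ⟨C, hC⟩ := hM.sp (P := fun x => ∀ Z, ((∀ t, E t k → ¬ E t A → E t Z) ∧
      (∀ t, E t Z → ∀ y, App E g t y → E y Z)) → E x Z) (by
    apply Dfn.all
    apply Dfn.imp
    · apply Dfn.and
      · apply Dfn.all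
        apply Dfn.imp
        · exact Dfn.mem (Tm.var _) (Tm.const _)
        · apply Dfn.imp
          · exact (Dfn.mem (Tm.var _) (Tm.const _)).not
          · exact Dfn.mem (Tm.var _) (Tm.var _)
      · apply Dfn.all
        apply Dfn.imp
        · exact Dfn.mem (Tm.var _) (Tm.var _)
        · apply Dfn.all
          apply Dfn.imp
          · exact Dfn.app (Tm.const _) (Tm.var _) (Tm.var _)
          · exact Dfn.mem (Tm.var _) (Tm.var _)
    · exact Dfn.mem (Tm.var _) (Tm.var _)) k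
  have hC1 : ∀ x, E x k → ¬ E x A → E x C := fun x hx hxA =>
    (hC x).2 ⟨hx, fun Z hZ => hZ.1 x hx hxA⟩
  have hC2 : ∀ x, E x C → ∀ y, App E g x y → E y C := by
    intro x hx y hxy
    have hd := Sem.Fun.dom hM hg hxy
    exact (hC y).2 ⟨hA y hd.2, fun Z hZ => hZ.2 x (((hC x).1 hx).2 Z hZ) y hxy⟩
  have hC3 : ∀ y, E y A → E y C → ∃ x, E x C ∧ App E g x y := by
    intro y hyA hyC
    by_contra hcon
    push Not at hcon
    obtain ⟨Z, hZ⟩ := hM.sp (P := fun z => ¬ z = y) (Dfn.eq (Tm.var _) (Tm.const _)).not C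
    have h1 := ((hC y).1 hyC).2 Z ⟨fun t ht htA => (hZ t).2 ⟨hC1 t ht htA, ?_⟩,
      fun t ht z htz => (hZ z).2 ⟨hC2 t ((hZ t).1 ht).1 z htz, ?_⟩⟩
    · exact ((hZ y).1 h1).2 rfl
    · rintro rfl
      exact htA hyA
    · rintro rfl
      exact hcon t ((hZ t).1 ht).1 htz
  obtain ⟨f, hf, hf'⟩ := hM.exists_fun A k
    (R := fun y x => (E x C ∧ App E g x y) ∨ (¬ E x C ∧ x = y)) (by
    apply Dfn.or
    · apply Dfn.and
      · exact Dfn.mem (Tm.var _) (Tm.const _)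
      · exact Dfn.app (Tm.const _) (Tm.var _) (Tm.var _)
    · apply Dfn.and
      · exact (Dfn.mem (Tm.var _) (Tm.const _)).not
      · exact Dfn.eq (Tm.var _) (Tm.var _)) (by
    intro y hy
    by_cases hyC : E y C
    · obtain ⟨x, hx, hxy⟩ := hC3 y hy hyC
      exact ⟨x, (Sem.Fun.dom hM hg hxy).1, Or.inl ⟨hx, hxy⟩⟩
    · exact ⟨y, hA y hy, Or.inr ⟨hyC, rfl⟩⟩) (by
    rintro y hy x x' hx hx' (⟨h1, h2⟩ | ⟨h1, h2⟩) (⟨h3, h4⟩ | ⟨h3, h4⟩)
    · exact hi x x' y h2 h4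
    · subst h4
      exact absurd (hC2 x h1 _ h2) h3
    · subst h2
      exact absurd (hC2 x' h3 _ h4) h1
    · rw [h2, h4])
  refine ⟨f, hf, ?_, ?_⟩
  · intro y y' x h h'
    rcases ((hf' y x).1 h).2.2 with ⟨h1, h2⟩ | ⟨h1, h2⟩ <;>
      rcases ((hf' y' x).1 h').2.2 with ⟨h3, h4⟩ | ⟨h3, h4⟩
    · exact hg.2.2 x y y' h2 h4
    · exact absurd h1 h3
    · exact absurd h3 h1
    · rw [← h2, ← h4]
  · intro x hx
    by_cases hxC : E x C
    · obtain ⟨y, hy, hxy⟩ := hg.2.1 x hx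
      exact ⟨y, hy, (hf' y x).2 ⟨hy, hx, Or.inl ⟨hxC, hxy⟩⟩⟩
    · have hxA : E x A := by
        by_contra h
        exact hxC (hC1 x hx h)
      exact ⟨x, hxA, (hf' x x).2 ⟨hxA, hx, Or.inr ⟨hxC, rfl⟩⟩⟩

/-- A subset of `k` which can be mapped onto `k` has the same cardinality as `k`. -/
theorem equip_of_onto (hM : IsZFC E) {A k : M} (hA : ∀ x, E x A → E x k)
    (h : Sem.Onto E A k) : Equip E A k := by
  obtain ⟨F, hF, hs⟩ := h
  obtain ⟨g, hg, hi⟩ := exists_inj hM hF hs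
  exact bernstein hM.toIsZF hA hg hi

end Pool.Agent.helper59.HC
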