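import Mathlib
import Pool.Agent.helper59.HC.Forced
import Pool.Agent.helper59.HC.Inner

set_option autoImplicit false

/-!
# The model
-/

open Set Filter Cardinal FirstOrder FirstOrder.Language

namespace Pool.Agent.helper59.HC

open Pool.Agent.helper57.Fc
open Pool.Agent.helper57.Fc.Sem (UPair OPair App Fun Inj Surj Equip Trans Ord Card Lim)

namespace Sem

variable {M : Type} (E : M → M → Prop)

/-- `b` is the least cardinal greater than `a`. -/
def NextCard (a b : M) : Prop := Card E b ∧ E a b ∧ ∀ x, E x b → Card E x → E x a ∨ x = a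

/-- `k →_{hc,<3} (k)²_w`: for every function `c` from the set `D` of all two-element subsets of `k`
to `w` there are a subset `A` of `k` of the same cardinality as `k` and `i ∈ w`, such that for
every subset `C` of `A` of cardinality less than `k`, any two distinct elements `x`, `y` of
`A \ C` either have `c {x, y} = i` or have a common neighbour `z` in `A \ C`, i.e.
`c {x, z} = c {z, y} = i`. -/
def HC3 (k w : M) : Prop := ∀ D c, Pairs E D k → Fun E c D w →
  ∃ A i, (∀ x, E x A → E x k) ∧ Equip E A k ∧ E i w ∧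
    ∀ C, (∀ x, E x C → E x A) → (∃ b, E b k ∧ Equip E b C) →
      ∀ x, E x A → ∀ y, E y A → ¬ E x C → ¬ E y C → x ≠ y →
        Col E c x y i ∨ ∃ z, E z A ∧ ¬ E z C ∧ Col E c x z i ∧ Col E c z y i

end Sem

section Conv

variable {M : Type} {E : M → M → Prop}

theorem nextCard_of (hM : IsZFC E) {a b : M} (h : Sem.NextF E a b) : Sem.NextCard E a b := by
  obtain ⟨h1, h2, h3⟩ := h
  refine ⟨h1, h2, fun x hx hc => ?_⟩
  rcases h3 x hx with h4 | ⟨h4, h5⟩
  · exact h4
  · have hax : ∀ t, E t a → E t x := fun t ht => hc.1.1 a h4 t ht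
    exact absurd (equip_of_onto hM hax h5) (hc.2 a h4)

theorem hc3_of (hM : IsZFC E) {k w : M} (h : Sem.HCF E k w) : Sem.HC3 E k w := by
  intro D c hD hc
  obtain ⟨A, i, hi, hA, hAk, hg⟩ := h D c hD hc
  refine ⟨A, i, hA, equip_of_onto hM hA hAk, hi, fun C hC hCs x hx y hy hxC hyC hne => Or.inr ?_⟩
  obtain ⟨b, hb, hbC⟩ := hCs
  exact hg C hC ⟨b, hb, equip_onto hbC⟩ x hx y hy hxC hyC hne

end Conv

/-! ### The sentence -/

/-- `∃ w l k`: `w = ω`, `l = ω₁`, `k = ω₂` and the partition relation holds for `k`. -/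
def fMain : Fm 0 :=
  ∃' (∃' (∃' (fIsOmega (up (up nw)) ⊓ (fNextF (up (up nw)) (up nw) ⊓ (fNextF (up nw) nw ⊓
    fHCF nw (up (up nw)))))))

section Fo

variable {P : Type} [Preorder P] [OrderTop P] {p : P} {n : ℕ} {xs : Fin n → Name P}

theorem fo_isOmega {w : Fin n} (hw : xs w = oN P Ordinal.omega0) : Fo (fIsOmega w) xs p := by
  unfold fIsOmega
  rw [fo_and, fo_and]
  refine ⟨fo_ord_oN hw, fo_lim_oN hw Ordinal.isSuccLimit_omega0, ?_⟩
  rw [fo_ball_oN hw]
  intro i hi
  obtain ⟨m, rfl⟩ := Ordinal.lt_omega0.1 hi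
  rw [fo_not]
  intro q _ h
  unfold fLim at h
  rw [fo_and] at h
  obtain ⟨h1, h2⟩ := h
  rw [fo_ex] at h1
  obtain ⟨r, hr, x, hx⟩ := h1 q le_rfl
  rw [fo_mem] at hx
  simp only [sn_up, sn_nw] at hx
  obtain ⟨s, hs, j, hj, -⟩ := mem_oN.1 hx r le_rfl
  rw [fo_ball_oN (o := (m : Ordinal.{0})) (by rw [sn_nw])] at h2
  obtain ⟨m', rfl⟩ : ∃ m', m = m' + 1 := by
    cases m with
    | zero =>
      rw [Nat.cast_zero] at hj
      exact absurd hj (not_lt.2 zero_le)
    | succ m' => exact ⟨m', rfl⟩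
  have h3 := h2 (m' : Ordinal.{0}) (by exact_mod_cast Nat.lt_succ_self m')
  rw [fo_bex_oN (o := ((m' + 1 : ℕ) : Ordinal.{0})) (by rw [sn_up, sn_nw])] at h3
  obtain ⟨t, ht, i, hi, h4⟩ := h3 q le_rfl
  rw [fo_mem] at h4
  simp only [sn_up, sn_nw] at h4
  rw [oN_mem_oN] at h4
  obtain ⟨i', rfl⟩ := Ordinal.lt_omega0.1 (hi.trans (Ordinal.natCast_lt_omega0 _))
  have h5 : m' < i' := by exact_mod_cast h4
  have h6 : i' < m' + 1 := by exact_mod_cast hi
  omega

end Fo

section Lv

variable {κ : Cardinal.{0}} {p : Lv κ} {n : ℕ} {xs : Fin n → Name (Lv κ)}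

theorem omega0_lt_ord_aleph_one : Ordinal.omega0 < (ℵ₁ : Cardinal.{0}).ord := by
  rw [← Cardinal.ord_aleph0]
  exact Cardinal.ord_lt_ord.2 Cardinal.aleph0_lt_aleph_one

theorem fo_next_one {a b : Fin n} (ha : xs a = oN _ Ordinal.omega0)
    (hb : xs b = oN _ (ℵ₁ : Cardinal.{0}).ord) : Fo (fNextF a b) xs p := by
  unfold fNextF
  rw [fo_and, fo_and]
  refine ⟨?_, ?_, ?_⟩
  · refine fo_card_oN hb fun β hβ => noSurj_of_dist' dist_cond ?_ hβ
    have := Cardinal.lt_ord.1 hβ
    rw [← Cardinal.succ_aleph0] at this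
    exact Order.lt_succ_iff.1 this
  · rw [fo_mem, ha, hb, oN_mem_oN]
    exact omega0_lt_ord_aleph_one
  · rw [fo_ball_oN hb]
    intro i hi
    rw [fo_or]
    intro q _
    refine ⟨q, le_rfl, ?_⟩
    rcases lt_trichotomy i Ordinal.omega0 with h | h | h
    · left
      rw [fo_or]
      refine fun q' _ => ⟨q', le_rfl, Or.inl ?_⟩
      rw [fo_mem]
      simp only [sn_up, sn_nw]
      rw [ha, oN_mem_oN]
      exact h
    · left
      rw [fo_or]
      refine fun q' _ => ⟨q', le_rfl, Or.inr ?_⟩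
      rw [fo_eq]
      simp only [sn_up, sn_nw]
      rw [ha, oN_eq_oN]
      exact h
    · right
      rw [fo_and]
      constructor
      · rw [fo_mem]
        simp only [sn_up, sn_nw]
        rw [ha, oN_mem_oN]
        exact h
      · -- a surjection of the ground model
        have hc : #i.ToType ≤ #(Ordinal.omega0 : Ordinal.{0}).ToType := by
          rw [Cardinal.mk_toType, Cardinal.mk_toType, Ordinal.card_omega0]
          have := Cardinal.lt_ord.1 hi
          rw [← Cardinal.succ_aleph0] at this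
          exact Order.lt_succ_iff.1 this
        rw [Cardinal.le_def] at hc
        obtain ⟨e⟩ := hc
        have hne : Nonempty i.ToType := by
          obtain ⟨j, -⟩ := exists_ord h
          exact ⟨j⟩
        let g : (Ordinal.omega0 : Ordinal.{0}).ToType → i.ToType := Function.invFun e
        have hg : Function.Surjective g := Function.invFun_surjective e.injective
        refine fo_onto_of (fnN _ g) ?_ ?_
        · simp only [sn_up, sn_nw]
          rw [ha]
          exact ffun_fnN g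
        · simp only [sn_up, sn_nw]
          rw [ha, oN_def' Ordinal.omega0, oN_def' i]
          unfold fnN
          intro y q _ hy r hr
          exact surj_grN (p := q) (x := fun i => oN _ (ord i)) (y := fun i => oN _ (ord (g i)))
            (z := fun i => oN _ (ord i)) (fun k => by
              obtain ⟨j, rfl⟩ := hg k
              exact ⟨j, fun q => ForcesEq.refl _ _⟩) y q le_rfl hy r hr

theorem fo_next_two (S : Setup κ) {a b : Fin n} (ha : xs a = oN _ (ℵ₁ : Cardinal.{0}).ord)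
    (hb : xs b = oN _ κ.ord) : Fo (fNextF a b) xs p := by
  unfold fNextF
  rw [fo_and, fo_and]
  refine ⟨?_, ?_, ?_⟩
  · exact fo_card_oN hb fun β hβ => noSurj_of_cc' S.nrm.cc S.bdd hβ
  · rw [fo_mem, ha, hb, oN_mem_oN]
    exact Cardinal.ord_lt_ord.2 S.lt
  · rw [fo_ball_oN hb]
    intro i hi
    rw [fo_or]
    intro q _
    refine ⟨q, le_rfl, ?_⟩
    rcases lt_trichotomy i (ℵ₁ : Cardinal.{0}).ord with h | h | h
    · left
      rw [fo_or]
      refine fun q' _ => ⟨q', le_rfl, Or.inl ?_⟩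
      rw [fo_mem]
      simp only [sn_up, sn_nw]
      rw [ha, oN_mem_oN]
      exact h
    · left
      rw [fo_or]
      refine fun q' _ => ⟨q', le_rfl, Or.inr ?_⟩
      rw [fo_eq]
      simp only [sn_up, sn_nw]
      rw [ha, oN_eq_oN]
      exact h
    · right
      rw [fo_and]
      constructor
      · rw [fo_mem]
        simp only [sn_up, sn_nw]
        rw [ha, oN_mem_oN]
        exact h
      · obtain ⟨j, rfl⟩ := exists_ord hi
        have h0 : (0 : Ordinal.{0}) < ord j := zero_le.trans_lt h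
        obtain ⟨v₀, hv₀⟩ := exists_ord (h0.trans (ord_lt j))
        have hv : v₀ < j := by
          rw [← helper57.Fc.ord_lt_ord, hv₀]
          exact h0
        refine fo_onto_of (colN j) ?_ ?_
        · simp only [sn_up, sn_nw]
          rw [ha]
          exact ffun_colN hv _
        · simp only [sn_up, sn_nw]
          rw [ha]
          exact fsurj_colN j _

theorem fo_main (S : Setup κ) (xs : Fin 0 → Name (Lv κ)) (p : Lv κ) : Fo fMain xs p := by
  unfold fMain
  refine fo_ex_of (oN _ Ordinal.omega0) ?_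
  refine fo_ex_of (oN _ (ℵ₁ : Cardinal.{0}).ord) ?_
  refine fo_ex_of (oN _ κ.ord) ?_
  rw [fo_and, fo_and, fo_and]
  refine ⟨fo_isOmega ?_, fo_next_one ?_ ?_, fo_next_two S ?_ ?_, fo_hcf S ?_ ?_ p⟩ <;>
    simp only [sn_up, sn_nw]

end Lv

/-- The model. -/
theorem exists_hc_model {κ : Cardinal.{0}} (hκ : IsMeasurable κ) :
    ∃ (M : Type) (E : M → M → Prop), Countable M ∧ IsZFC E ∧ ∃ w l k : M,
      Sem.IsOmega E w ∧ Sem.NextCard E w l ∧ Sem.NextCard E l k ∧ Sem.HC3 E k w := by
  obtain ⟨S⟩ := exists_setup hκ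
  obtain ⟨G⟩ := exists_gen (nameUniv_univ (P := Lv κ)) ⊤
  have hZ : IsZFC G.E := G.isZFC
  have h := G.of_forces (fun xs _ => fo_main S xs ⊤) Fin.elim0
  unfold fMain at h
  simp only [sat_ex, sat_and, sat_isOmega, sat_nextF, sat_hcf, sn_up, sn_nw] at h
  obtain ⟨w, l, k, h1, h2, h3, h4⟩ := h
  exact ⟨G.M, G.E, G.surj.countable, hZ, w, l, k, h1, nextCard_of hZ h2, nextCard_of hZ h3,
    hc3_of hZ h4⟩

end Pool.Agent.helper59.HC
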